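import Pool.Agent.MP_5a4599_gt.Defs
import Pool.Agent.MP_c6cf52_lc.Omega1

section

namespace Pool.Agent.MP_5a4599_gt

open Pool.Agent.MP_c6cf52_lc

universe u

variable {M : Type u} (E : M → M → Prop)

/-- `F (x, n) = m`. -/
def App2 (F x n m : M) : Prop := ∃ p, IsPair E p x n ∧ App E F p m

/-- `F` is (on `a × b`) a total single-valued relation with values in `c`. -/
def Tot2 (F a b c : M) : Prop :=
  ∀ x n, E x a → E n b → ∃ m, E m c ∧ App2 E F x n m ∧ ∀ m', App2 E F x n m' → m' = m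

/-- The bounding number is larger than `w1`. -/
def PrB (om w1 : M) : Prop :=
  ∀ F, Tot2 E F w1 om om → ∃ d, IsFun E d om om ∧ ∀ x, E x w1 → ∃ N, E N om ∧
    ∀ n m m', E n om → ¬ E n N → App2 E F x n m → App E d n m' → ¬ E m' m

/-- Clubs with gaps. -/
def PrStar (om w1 : M) : Prop :=
  ∀ A B, Tot2 E A w1 om w1 → Tot2 E B w1 om w1 →
    (∀ x n a b, E x w1 → E n om → App2 E A x n a → App2 E B x n b → ¬ E b a ∧ ¬ E x b) →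
    (∀ x n, E x w1 → E n om → ∃ N, E N om ∧ ∀ n' a b, E n' om → ¬ E n' N →
      App2 E A x n' a → App2 E B x n b → ¬ E a b) →
    ∃ C, (∀ c, E c C → E c w1) ∧ (∀ a, E a w1 → ∃ c, E c C ∧ E a c) ∧
      (∀ d, E d w1 → (∃ a, E a d) → (∀ a, E a d → ∃ c, E c C ∧ E a c ∧ E c d) → E d C) ∧
      ∀ x N, E x w1 → E N om → ∃ n, E n om ∧ ¬ E n N ∧
        ∀ a b c, App2 E A x n a → App2 E B x n b → E c C → E a c → E b c

end Pool.Agent.MP_5a4599_gt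

end

section

namespace Pool.Agent.MP_5a4599_gt

open Pool.Agent.MP_c6cf52_lc Gen Cd W1

universe u

variable {P : Type u} [Preorder P] [OrderTop P] {g : Gen P} {W : W1 g}

theorem app2_iff {F x n m : g.M} : App2 g.E F x n m ↔ App g.E F (pr x n) m := by
  simp [App2, isPair_iff]

theorem exists_tot2 {β : Type*} [Cd g β] {c : g.M} (hc : ∀ b : β, g.E (ι b) c)
    {f : W.T → ℕ → β} (hf : g.Tm (fun z : W.T × ℕ => f z.1 z.2)) :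
    ∃ F, Tot2 g.E F W.w g.om c ∧
      ∀ (x : W.T) (n : ℕ) m, App2 g.E F (ι x) (g.nat n) m ↔ m = ι (f x n) := by
  obtain ⟨F, -, hF⟩ := exists_graph Df.true hf
  have e : ∀ (x : W.T) (n : ℕ) m, App2 g.E F (ι x) (g.nat n) m ↔ m = ι (f x n) := by
    intro x n m
    rw [app2_iff, hF]
    constructor
    · rintro ⟨⟨y, k⟩, -, e, rfl⟩
      obtain ⟨e₁, e₂⟩ := pr_inj.1 e
      rw [inj e₁, nat_inj e₂]
    · rintro rfl
      exact ⟨(x, n), trivial, rfl, rfl⟩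
  refine ⟨F, fun x n hx hn => ?_, e⟩
  obtain ⟨x, rfl⟩ := exists_T hx
  obtain ⟨n, rfl⟩ := E_om.1 hn
  exact ⟨_, hc _, (e _ _ _).2 rfl, fun m' h => (e _ _ _).1 h⟩

/-- The principle `PrB` for definable families. -/
def DB (W : W1 g) : Prop :=
  ∀ f : W.T → ℕ → ℕ, g.Tm (fun z : W.T × ℕ => f z.1 z.2) →
    ∃ φ : ℕ → ℕ, g.Tm φ ∧ ∀ x, ∃ N, ∀ n, N ≤ n → f x n ≤ φ n

/-- The principle `PrStar` for definable families. -/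
def DStar (W : W1 g) : Prop :=
  ∀ A B : W.T → ℕ → W.T, g.Tm (fun z : W.T × ℕ => A z.1 z.2) →
    g.Tm (fun z : W.T × ℕ => B z.1 z.2) → (∀ x n, A x n ≤ B x n ∧ B x n ≤ x) →
    (∀ x n, ∃ N, ∀ n', N ≤ n' → B x n ≤ A x n') →
    ∃ C : W.T → Prop, g.Tm C ∧ (∀ a, ∃ c, C c ∧ a < c) ∧
      (∀ d, (∃ a, a < d) → (∀ a < d, ∃ c, C c ∧ a < c ∧ c < d) → C d) ∧
      ∀ x N, ∃ n, N ≤ n ∧ ∀ c, C c → A x n < c → B x n < c

theorem dB_of (h : PrB g.E g.om W.w) : DB W := by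
  intro f hf
  obtain ⟨F, hF, e⟩ := exists_tot2 (β := ℕ) nat_om hf
  obtain ⟨d, hd, h⟩ := h F hF
  refine ⟨fun n => un ℕ (ev g.M g.M d (g.nat n)), by fun_prop, fun x => ?_⟩
  obtain ⟨N, hN, h⟩ := h _ (ι_mem x)
  obtain ⟨N, rfl⟩ := E_om.1 hN
  refine ⟨N, fun n hn => ?_⟩
  have h₁ := app_ev hd (nat_om n)
  obtain ⟨m, hm⟩ := E_om.1 (fun_mem hd h₁).2
  have := h _ _ _ (nat_om n) (by rw [nat_lt]; omega) ((e _ _ _).2 rfl) h₁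
  dsimp only
  rw [← hm] at this ⊢
  rw [ι_nat, nat_lt] at this
  rw [← ι_nat, un_ι]
  omega

theorem dStar_of (h : PrStar g.E g.om W.w) : DStar W := by
  intro A B hA hB h₁ h₂
  obtain ⟨FA, hFA, eA⟩ := exists_tot2 (β := W.T) ι_mem hA
  obtain ⟨FB, hFB, eB⟩ := exists_tot2 (β := W.T) ι_mem hB
  obtain ⟨C, c₁, c₂, c₃, c₄⟩ := h FA FB hFA hFB (fun x n a b hx hn ha hb => by
      obtain ⟨x, rfl⟩ := exists_T hx
      obtain ⟨n, rfl⟩ := E_om.1 hn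
      rw [eA] at ha
      rw [eB] at hb
      subst ha hb
      exact ⟨not_lt.2 (h₁ x n).1, not_lt.2 (h₁ x n).2⟩) (fun x n hx hn => by
      obtain ⟨x, rfl⟩ := exists_T hx
      obtain ⟨n, rfl⟩ := E_om.1 hn
      obtain ⟨N, hN⟩ := h₂ x n
      refine ⟨_, nat_om N, fun n' a b hn' hN' ha hb => ?_⟩
      obtain ⟨n', rfl⟩ := E_om.1 hn'
      rw [eA] at ha
      rw [eB] at hb
      subst ha hb
      exact not_lt.2 (hN n' (not_lt.1 fun h => hN' (nat_lt.2 h))))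
  refine ⟨fun c => g.E (ι c) C, by fun_prop, fun a => ?_, fun d ⟨a, ha⟩ hd => ?_, fun x N => ?_⟩
  · obtain ⟨c, hc, h⟩ := c₂ _ (ι_mem a)
    obtain ⟨c, rfl⟩ := exists_T (c₁ c hc)
    exact ⟨c, hc, h⟩
  · refine c₃ _ (ι_mem d) ⟨_, ha⟩ fun b hb => ?_
    obtain ⟨b, rfl⟩ := exists_T (W.card.1.1 _ _ (ι_mem d) hb)
    obtain ⟨c, h⟩ := hd b hb
    exact ⟨_, h⟩
  · obtain ⟨n, hn, hN, h⟩ := c₄ _ _ (ι_mem x) (nat_om N)
    obtain ⟨n, rfl⟩ := E_om.1 hn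
    exact ⟨n, not_lt.1 fun h => hN (nat_lt.2 h), fun c hc hA =>
      h _ _ _ ((eA _ _ _).2 rfl) ((eB _ _ _).2 rfl) hc hA⟩

variable {O : Type*} [Cd g O] [Bd g O]

/-- `Q` is a neighbourhood of `x`. -/
def Nb (In : W.T → O → Prop) (Q : W.T → Prop) (x : W.T) : Prop :=
  ∃ U, In x U ∧ ∀ y, In y U → Q y

omit [Bd g O] in
@[fun_prop] theorem tm_Nb {In : W.T → O → Prop} (hIn : g.Tm (fun z : W.T × O => In z.1 z.2))
    {Γ : Type*} [Cd g Γ] {Q : Γ → W.T → Prop} {x : Γ → W.T}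
    (hQ : g.Tm (fun z : Γ × W.T => Q z.1 z.2)) (hx : g.Tm x) :
    g.Tm (fun p => Nb In (Q p) (x p)) := by
  unfold Nb
  fun_prop

/-- A regular space on `omega_1` with a sigma locally countable base, in coded form. -/
structure Hyp (In : W.T → O → Prop) (L : O → ℕ → Prop) : Prop where
  tIn : g.Tm (fun z : W.T × O => In z.1 z.2)
  tL : g.Tm (fun z : O × ℕ => L z.1 z.2)
  mono : ∀ B n m, L B n → n ≤ m → L B m
  base : ∀ x U, In x U → ∃ B n, L B n ∧ In x B ∧ ∀ y, In y B → In y U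
  inter : ∀ x U V, In x U → In x V → ∃ U', In x U' ∧ ∀ y, In y U' → In y U ∧ In y V
  loc : ∀ x n, ∃ U, In x U ∧ ∃ f : O → ℕ, g.Tm f ∧ ∀ B B' y y', L B n → L B' n → In y B →
    In y U → In y' B' → In y' U → f B = f B' → B = B'
  reg : ∀ x U, In x U → ∃ V, In x V ∧ ∀ y, ¬ In y U → Nb In (fun z => ¬ In z V) y

variable {In : W.T → O → Prop} {L : O → ℕ → Prop}

omit [Cd g O] [Bd g O] in
theorem Nb.mono {Q R : W.T → Prop} {x : W.T} (h : Nb In Q x) (e : ∀ y, Q y → R y) : Nb In R x :=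
  let ⟨U, h₁, h₂⟩ := h
  ⟨U, h₁, fun y hy => e y (h₂ y hy)⟩

omit [Cd g O] [Bd g O] in
theorem Nb.self {Q : W.T → Prop} {x : W.T} (h : Nb In Q x) : Q x :=
  let ⟨_, h₁, h₂⟩ := h
  h₂ x h₁

omit [Cd g O] [Bd g O] in
theorem Nb.nb {Q : W.T → Prop} {x : W.T} (h : Nb In Q x) : Nb In (Nb In Q) x :=
  let ⟨U, h₁, h₂⟩ := h
  ⟨U, h₁, fun _ hy => ⟨U, hy, h₂⟩⟩

omit [Cd g O] [Bd g O] in
theorem Nb.of_in {U : O} {x : W.T} (h : In x U) : Nb In (fun y => In y U) x :=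
  ⟨U, h, fun _ hy => hy⟩

omit [Bd g O] in
theorem Hyp.and (H : Hyp In L) {Q R : W.T → Prop} {x : W.T} (h₁ : Nb In Q x) (h₂ : Nb In R x) :
    Nb In (fun y => Q y ∧ R y) x := by
  obtain ⟨U, hU, h₁⟩ := h₁
  obtain ⟨V, hV, h₂⟩ := h₂
  obtain ⟨U', h, h'⟩ := H.inter x U V hU hV
  exact ⟨U', h, fun y hy => ⟨h₁ y (h' y hy).1, h₂ y (h' y hy).2⟩⟩

omit [Bd g O] in
theorem Hyp.fin (H : Hyp In L) {I : Type*} {S : Set I} (hS : S.Finite) {Q : I → W.T → Prop}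
    {x : W.T} (h : ∀ i ∈ S, Nb In (Q i) x) : Nb In (fun y => ∀ i ∈ S, Q i y) x := by
  induction S, hS using Set.Finite.induction_on with
  | empty =>
    obtain ⟨U, hU, -⟩ := H.loc x 0
    exact ⟨U, hU, fun _ _ _ h => h.elim⟩
  | @insert a S _ _ ih =>
    refine (H.and (h a (Set.mem_insert _ _)) (ih fun i hi => h i (Set.mem_insert_of_mem _ hi))).mono
      fun y hy i hi => ?_
    rcases hi with rfl | hi
    exacts [hy.1, hy.2 i hi]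

/-- The disjoint open families obtained from the club principle. -/
structure Key (In : W.T → O → Prop) (L : O → ℕ → Prop) (G : ℕ → W.T → W.T → Prop)
    (cd : W.T → O → ℕ) : Prop where
  tG : g.Tm (fun z : ℕ × W.T × W.T => G z.1 z.2.1 z.2.2)
  tcd : g.Tm (fun z : W.T × O => cd z.1 z.2)
  op : ∀ m d x, G m d x → Nb In (G m d) x
  uniq : ∀ m d d' x, G m d x → G m d' x → d = d'
  often : ∀ x N, ∃ m d, N ≤ m ∧ G m d x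
  inj : ∀ m d B B' x x', L B m → L B' m → In x B → G m d x → In x' B' → G m d x' →
    cd d B = cd d B' → B = B'

theorem Hyp.exists_key (H : Hyp In L) (hS : DStar W) : ∃ G cd, Key In L G cd := by
  classical
  have tIn := H.tIn
  have tL := H.tL
  obtain ⟨mn, tmn, hmn⟩ := tm_choice (g := g)
    (Q := fun (B : O) (a : W.T) => ∀ z, In z B → In a B ∧ a ≤ z) (by fun_prop) fun B => by
      by_cases h : ∃ z, In z B
      · obtain ⟨a, ha, hmin⟩ := wellFounded_lt.has_min {z | In z B} h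
        exact ⟨a, fun z hz => ⟨ha, not_lt.1 (hmin z hz)⟩⟩
      · exact ⟨⊥, fun z hz => absurd ⟨z, hz⟩ h⟩
  obtain ⟨Sm, tSm, hSm⟩ : ∃ Sm : O → ℕ → Prop, g.Tm (fun z : O × ℕ => Sm z.1 z.2) ∧
      ∀ V n, Sm V n ↔ (∃ k, L V k) ∧ ∃ b, ∀ B z, L B n → In z B → In z V → mn B < b :=
    ⟨_, by fun_prop, fun _ _ => Iff.rfl⟩
  have Sm_anti : ∀ V n n', n ≤ n' → Sm V n' → Sm V n := fun V n n' hn h => by
    obtain ⟨h₁, b, hb⟩ := (hSm _ _).1 h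
    exact (hSm _ _).2 ⟨h₁, b, fun B z hB => hb B z (H.mono _ _ _ hB hn)⟩
  have Sm_ex : ∀ x n, ∃ V, Sm V n ∧ In x V := fun x n => by
    obtain ⟨U, hU, f, tf, hf⟩ := H.loc x n
    obtain ⟨b, hb⟩ := bounded (Q := fun B => L B n ∧ ∃ y, In y B ∧ In y U) (by fun_prop) tf tmn
      fun B B' ⟨h₁, y, h₂, h₃⟩ ⟨h₄, y', h₅, h₆⟩ => hf B B' y y' h₁ h₄ h₂ h₃ h₅ h₆
    obtain ⟨V, k, h₁, h₂, h₃⟩ := H.base x U hU
    exact ⟨V, (hSm _ _).2 ⟨⟨k, h₁⟩, b, fun B z h₄ h₅ h₆ => hb B ⟨h₄, z, h₅, h₃ z h₆⟩⟩, h₂⟩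
  obtain ⟨F, tF, hF⟩ := tm_choice_fun (g := g) (Q := fun (p : W.T × ℕ) (f : O → ℕ) =>
    ∀ B B', L B p.2 → L B' p.2 → In p.1 B → In p.1 B' → f B = f B' → B = B') (by fun_prop)
    fun p => by
      obtain ⟨U, hU, f, tf, hf⟩ := H.loc p.1 p.2
      exact ⟨f, tf, fun B B' h₁ h₂ h₃ h₄ => hf B B' _ _ h₁ h₂ h₃ hU h₄ hU⟩
  obtain ⟨lv, tlv, hlv⟩ := tm_choice (g := g)
    (Q := fun (B : O) (n : ℕ) => (∃ k, L B k) → L B n) (by fun_prop) fun B => by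
      by_cases h : ∃ k, L B k
      · exact ⟨h.choose, fun _ => h.choose_spec⟩
      · exact ⟨0, fun h' => absurd h' h⟩
  obtain ⟨e, te, he⟩ := exists_e (W := W)
  obtain ⟨cd, tcd, hcd⟩ : ∃ cd : W.T → O → ℕ, g.Tm (fun z : W.T × O => cd z.1 z.2) ∧
      ∀ a B B' z z', (∃ k, L B k) → (∃ k, L B' k) → In z B → In z' B' → mn B < a → mn B' < a →
        cd a B = cd a B' → B = B' := by
    refine ⟨fun a B => Nat.pair (e a (mn B)) (Nat.pair (lv B) (F (mn B, lv B) B)), by fun_prop,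
      fun a B B' z z' h₁ h₂ h₃ h₄ h₅ h₆ h => ?_⟩
    obtain ⟨e₁, h⟩ := Nat.pair_eq_pair.1 h
    obtain ⟨e₂, e₃⟩ := Nat.pair_eq_pair.1 h
    have e₄ := he _ _ _ h₅ h₆ e₁
    rw [← e₄, ← e₂] at e₃
    exact hF (mn B, lv B) B B' (hlv B h₁) (e₂ ▸ hlv B' h₂) (hmn B z h₃).1
      (e₄ ▸ (hmn B' z' h₄).1) e₃
  obtain ⟨R, tR, hR⟩ : ∃ R : W.T → W.T → Prop, g.Tm (fun z : W.T × W.T => R z.1 z.2) ∧
      ∀ a c, R a c ↔ ∀ V n B z, Sm V n → mn V < a → L B n → In z B → In z V → mn B < c :=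
    ⟨_, by fun_prop, fun _ _ => Iff.rfl⟩
  have R_tot : ∀ a, ∃ b, ∀ c, b ≤ c → R a c := by
    obtain ⟨t, tt, ht⟩ := tm_choice (g := g) (Q := fun (p : O × ℕ) (b : W.T) =>
      Sm p.1 p.2 → ∀ B z, L B p.2 → In z B → In z p.1 → mn B < b) (by fun_prop) fun p => by
        by_cases h : Sm p.1 p.2
        · obtain ⟨-, b, hb⟩ := (hSm _ _).1 h
          exact ⟨b, fun _ => hb⟩
        · exact ⟨⊥, fun h' => absurd h' h⟩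
    intro a
    obtain ⟨b, hb⟩ := bounded (Q := fun p : O × ℕ => (∃ k, L p.1 k) ∧ (∃ z, In z p.1) ∧ mn p.1 < a)
      (f := fun p => Nat.pair (cd a p.1) p.2) (by fun_prop) (by fun_prop) tt
      fun p q ⟨h₁, ⟨z, h₂⟩, h₃⟩ ⟨h₄, ⟨z', h₅⟩, h₆⟩ h =>
        Prod.ext (hcd a _ _ z z' h₁ h₄ h₂ h₅ h₃ h₆ (Nat.pair_eq_pair.1 h).1)
          (Nat.pair_eq_pair.1 h).2
    exact ⟨b, fun c hc => (hR _ _).2 fun V n B z h₁ h₂ h₃ h₄ h₅ =>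
      ((ht (V, n) h₁ B z h₃ h₄ h₅).trans (hb (V, n) ⟨((hSm _ _).1 h₁).1, ⟨z, h₅⟩, h₂⟩)).trans_le hc⟩
  obtain ⟨Vs, tVs, hVs⟩ := tm_choice (g := g) (Q := fun (p : W.T × ℕ) (V : O) =>
    Sm V p.2 ∧ In p.1 V ∧ ∀ V', Sm V' p.2 → In p.1 V' → mn V ≤ mn V') (by fun_prop) fun p => by
      obtain ⟨V, h₁, h₂⟩ := Sm_ex p.1 p.2
      obtain ⟨_, ⟨V, h₁, h₂, rfl⟩, hmin⟩ := wellFounded_lt.has_min
        {a | ∃ V, Sm V p.2 ∧ In p.1 V ∧ mn V = a} ⟨_, V, h₁, h₂, rfl⟩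
      exact ⟨V, h₁, h₂, fun V' h₃ h₄ => not_lt.1 (hmin _ ⟨V', h₃, h₄, rfl⟩)⟩
  have r_mono : ∀ x n n', n ≤ n' → mn (Vs (x, n)) ≤ mn (Vs (x, n')) := fun x n n' h =>
    (hVs (x, n)).2.2 _ (Sm_anti _ _ _ h (hVs (x, n')).1) (hVs (x, n')).2.1
  obtain ⟨Sep, tSep, hSep⟩ : ∃ Sep : W.T → ℕ → W.T → Prop,
      g.Tm (fun z : W.T × ℕ × W.T => Sep z.1 z.2.1 z.2.2) ∧ ∀ x n a, Sep x n a ↔
        Nb In (fun z => ∀ V c, Sm V n → R c c → mn V < c → c ≤ a → ¬ In z V) x :=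
    ⟨_, by fun_prop, fun _ _ _ => Iff.rfl⟩
  obtain ⟨A, tA, hA⟩ := tm_choice (g := g) (Q := fun (p : W.T × ℕ) (a : W.T) =>
    a ≤ mn (Vs p) ∧ Sep p.1 p.2 a ∧ ∀ n, n ≤ p.2 → Sep p.1 p.2 (mn (Vs (p.1, n))) →
      mn (Vs (p.1, n)) ≤ a) (by fun_prop) fun p => by
      by_cases h : ∃ n, n ≤ p.2 ∧ Sep p.1 p.2 (mn (Vs (p.1, n)))
      · obtain ⟨n, h₁, h₂⟩ := h
        exact ⟨_, r_mono _ _ _ (Nat.findGreatest_le _),
          Nat.findGreatest_spec (P := fun n => Sep p.1 p.2 (mn (Vs (p.1, n)))) h₁ h₂,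
          fun k h₃ h₄ => r_mono _ _ _ (Nat.le_findGreatest h₃ h₄)⟩
      · refine ⟨⊥, bot_le, (hSep _ _ _).2 ⟨Vs p, (hVs p).2.1, fun z _ V c _ _ h₁ h₂ => ?_⟩,
          fun n h₁ h₂ => absurd ⟨n, h₁, h₂⟩ h⟩
        exact absurd (h₁.trans_le h₂) not_lt_bot
  obtain ⟨C, tC, c₁, c₂, c₃⟩ := hS (fun x n => A (x, n)) (fun x n => mn (Vs (x, n)))
    (by fun_prop) (by fun_prop) (fun x n => ⟨(hA (x, n)).1, (hmn _ _ (hVs (x, n)).2.1).2⟩)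
    fun x n => by
      obtain ⟨k, hk⟩ := ((hSm _ _).1 (hVs (x, n)).1).1
      refine ⟨max n k, fun n' hn' => (hA (x, n')).2.2 n (le_of_max_le_left hn')
        ((hSep _ _ _).2 ⟨_, (hVs (x, n)).2.1, fun z hz V c h₁ h₂ h₃ h₄ h₅ => ?_⟩)⟩
      exact absurd ((hR _ _).1 h₂ V n' _ z h₁ h₃ (H.mono _ _ _ hk (le_of_max_le_right hn')) hz h₅)
        (not_lt.2 h₄)
  have unb : ∀ a, ∃ d, (C d ∧ R d d) ∧ a < d := fun a => by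
    obtain ⟨d, h₁, h₂, h₃⟩ := exists_closure tC c₁ c₂ tR R_tot a
    refine ⟨d, ⟨h₁, (hR _ _).2 fun V n B z h₄ h₅ h₆ h₇ h₈ => ?_⟩, h₂⟩
    obtain ⟨y, y', k₁, -, k₂, k₃⟩ := h₃ _ h₅
    exact ((hR _ _).1 k₃ V n B z h₄ k₁ h₆ h₇ h₈).trans k₂
  refine ⟨fun m d x => (C d ∧ R d d) ∧ (∃ V, Sm V m ∧ In x V ∧ mn V < d) ∧
    Nb In (fun z => ∀ V c, Sm V m → C c ∧ R c c → mn V < c → c < d → ¬ In z V) x, cd,
    by fun_prop, tcd, ?_, ?_, fun x N => ?_, ?_⟩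
  · rintro m d x ⟨h₁, ⟨V, h₂, h₃, h₄⟩, h₅⟩
    exact (H.and (Nb.of_in h₃) h₅.nb).mono fun y hy => ⟨h₁, ⟨V, h₂, hy.1, h₄⟩, hy.2⟩
  · rintro m d d' x ⟨h₁, ⟨V, h₂, h₃, h₄⟩, h₅⟩ ⟨k₁, ⟨V', k₂, k₃, k₄⟩, k₅⟩
    rcases lt_trichotomy d d' with h | h | h
    exacts [absurd h₃ (k₅.self V d h₂ h₁ h₄ h), h, absurd k₃ (h₅.self V' d' k₂ k₁ k₄ h)]
  · obtain ⟨n, hn, h⟩ := c₃ x N
    obtain ⟨d, ⟨h₁, h₂⟩, hmin⟩ := wellFounded_lt.has_min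
      {d | (C d ∧ R d d) ∧ mn (Vs (x, n)) < d} (unb _)
    refine ⟨n, d, hn, h₁, ⟨_, (hVs (x, n)).1, (hVs (x, n)).2.1, h₂⟩,
      ((hSep _ _ _).1 (hA (x, n)).2.1).mono fun z hz V c k₁ k₂ k₃ k₄ => ?_⟩
    exact hz V c k₁ k₂.2 k₃ (not_lt.1 fun k₅ => hmin c ⟨k₂, h c k₂.1 k₅⟩ k₄)
  · rintro m d B B' x x' h₁ h₂ h₃ ⟨h₄, ⟨V, h₅, h₆, h₇⟩, -⟩ k₃ ⟨-, ⟨V', k₅, k₆, k₇⟩, -⟩
    exact hcd d B B' x x' ⟨m, h₁⟩ ⟨m, h₂⟩ h₃ k₃ ((hR _ _).1 h₄.2 V m B x h₅ h₇ h₁ h₃ h₆)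
      ((hR _ _).1 h₄.2 V' m B' x' k₅ k₇ h₂ k₃ k₆)

end Pool.Agent.MP_5a4599_gt

end

section

namespace Pool.Agent.MP_5a4599_gt

open Pool.Agent.MP_c6cf52_lc Gen Cd W1

universe u

variable {P : Type u} [Preorder P] [OrderTop P] {g : Gen P} {W : W1 g}

section Coded

variable {O : Type*} [Cd g O] [Bd g O] {In : W.T → O → Prop} {L : O → ℕ → Prop}
  {G : ℕ → W.T → W.T → Prop} {cd : W.T → O → ℕ}

omit [Bd g O] in
theorem Key.perfect (H : Hyp In L) (K : Key In L G cd) (hB : DB W) {U : ℕ → W.T → Prop}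
    (tU : g.Tm (fun z : ℕ × W.T => U z.1 z.2)) (hU : ∀ i x, U i x → Nb In (U i) x) :
    ∃ S : ℕ → ℕ → W.T → Prop, g.Tm (fun z : ℕ × ℕ × W.T => S z.1 z.2.1 z.2.2) ∧
      (∀ i x, U i x → ∃ j, ∀ j', j ≤ j' → S i j' x) ∧
      ∀ i j y, ¬ U i y → Nb In (fun z => ¬ S i j z) y := by
  have tIn := H.tIn
  have tL := H.tL
  have tG := K.tG
  have tcd := K.tcd
  obtain ⟨Bs, tBs, hBs⟩ := tm_choice (g := g) (Q := fun (p : ℕ × W.T) (B : O) => U p.1 p.2 →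
    (∃ k, L B k) ∧ In p.2 B ∧ ∀ y, ¬ U p.1 y → Nb In (fun z => ¬ In z B) y) (by fun_prop)
    fun p => by
      by_cases h : U p.1 p.2
      · obtain ⟨V, h₁, h₂⟩ := hU _ _ h
        obtain ⟨V', h₃, h₄⟩ := H.reg _ _ h₁
        obtain ⟨B, k, h₅, h₆, h₇⟩ := H.base _ _ h₃
        exact ⟨B, fun _ => ⟨⟨k, h₅⟩, h₆, fun y hy =>
          (h₄ y fun h' => hy (h₂ y h')).mono fun z hz h' => hz (h₇ z h')⟩⟩
      · obtain ⟨V, -⟩ := H.loc p.2 0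
        exact ⟨V, fun h' => absurd h' h⟩
  obtain ⟨dd, tdd, hdd⟩ := tm_choice (g := g) (Q := fun (p : ℕ × W.T) (d : W.T) =>
    ∀ d', G p.1 d' p.2 → d = d') (by fun_prop) fun p => by
      by_cases h : ∃ d, G p.1 d p.2
      · obtain ⟨d, h⟩ := h
        exact ⟨d, fun d' h' => K.uniq _ _ _ _ h h'⟩
      · exact ⟨⊥, fun d' h' => absurd ⟨d', h'⟩ h⟩
  obtain ⟨φ, tφ, hφ⟩ := tm_choice_fun (g := g) (Q := fun (i : ℕ) (φ : ℕ → ℕ) =>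
    ∀ x, ∃ N, ∀ n, N ≤ n → cd (dd (n, x)) (Bs (i, x)) ≤ φ n) (by fun_prop)
    fun i => hB _ (by fun_prop)
  refine ⟨fun i j x => U i x ∧ L (Bs (i, x)) j ∧ ∀ n, j ≤ n → cd (dd (n, x)) (Bs (i, x)) ≤ φ i n,
    by fun_prop, fun i x hx => ?_, fun i j y hy => ?_⟩
  · obtain ⟨k, hk⟩ := (hBs (i, x) hx).1
    obtain ⟨N, hN⟩ := hφ i x
    exact ⟨max k N, fun j hj => ⟨hx, H.mono _ _ _ hk (le_of_max_le_left hj),
      fun n hn => hN n ((le_of_max_le_right hj).trans hn)⟩⟩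
  · obtain ⟨m, d, hm, hG⟩ := K.often y j
    have fin : {B | (L B m ∧ (∃ x, In x B ∧ G m d x) ∧ cd d B ≤ φ i m) ∧
        Nb In (fun z => ¬ In z B) y}.Finite := by
      refine Set.Finite.of_injOn (f := cd d) (t := Set.Iic (φ i m)) (fun B hB => hB.1.2.2) ?_
        (Set.finite_Iic _)
      rintro B ⟨⟨h₁, ⟨x, h₂, h₃⟩, -⟩, -⟩ B' ⟨⟨k₁, ⟨x', k₂, k₃⟩, -⟩, -⟩
      exact K.inj m d B B' x x' h₁ k₁ h₂ h₃ k₂ k₃
    refine (H.and (K.op _ _ _ hG) (H.fin fin fun B hB => hB.2)).mono ?_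
    rintro z ⟨h₁, h₂⟩ ⟨h₃, h₄, h₅⟩
    obtain ⟨-, k₁, k₂⟩ := hBs (i, z) h₃
    refine h₂ _ ⟨⟨H.mono _ _ _ h₄ hm, ⟨z, k₁, h₁⟩, ?_⟩, k₂ y hy⟩ k₁
    rw [← hdd (m, z) d h₁]
    exact h₅ m hm

omit [Bd g O] in
theorem Key.metacompact (H : Hyp In L) (K : Key In L G cd) (hB : DB W) {Rf : O → Prop}
    (tRf : g.Tm Rf) (cov : ∀ x, ∃ B n, L B n ∧ In x B ∧ Rf B) :
    ∃ Y : ℕ × W.T × O → W.T → Prop, g.Tm (fun z : (ℕ × W.T × O) × W.T => Y z.1 z.2) ∧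
      (∀ p x, Y p x → Nb In (Y p) x) ∧ (∀ x, ∃ p, Y p x) ∧ (∀ x, {p | Y p x}.Finite) ∧
      ∀ p x, Y p x → Rf p.2.2 ∧ In x p.2.2 := by
  classical
  have tIn := H.tIn
  have tL := H.tL
  have tG := K.tG
  have tcd := K.tcd
  obtain ⟨Z, tZ, hZ⟩ : ∃ Z : ℕ × W.T × O → W.T → Prop,
      g.Tm (fun z : (ℕ × W.T × O) × W.T => Z z.1 z.2) ∧
      ∀ p x, Z p x ↔ Rf p.2.2 ∧ L p.2.2 p.1 ∧ In x p.2.2 ∧ G p.1 p.2.1 x :=
    ⟨_, by fun_prop, fun _ _ => Iff.rfl⟩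
  obtain ⟨c, tc, hc⟩ : ∃ c : ℕ × W.T × O → ℕ, g.Tm c ∧
      ∀ p q x, Z p x → Z q x → c p = c q → p = q := by
    refine ⟨fun p => Nat.pair p.1 (cd p.2.1 p.2.2), by fun_prop, ?_⟩
    rintro ⟨m, d, B⟩ ⟨m', d', B'⟩ x h₁ h₂ e
    obtain ⟨-, h₃, h₄, h₅⟩ := (hZ _ _).1 h₁
    obtain ⟨-, k₃, k₄, k₅⟩ := (hZ _ _).1 h₂
    obtain ⟨rfl, e₂⟩ := Nat.pair_eq_pair.1 e
    obtain rfl := K.uniq _ _ _ _ h₅ k₅
    obtain rfl : B = B' := K.inj _ _ _ _ _ _ h₃ k₃ h₄ h₅ k₄ k₅ e₂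
    rfl
  have Zop : ∀ p x, Z p x → Nb In (Z p) x := fun p x h => by
    obtain ⟨h₁, h₂, h₃, h₄⟩ := (hZ _ _).1 h
    exact (H.and (Nb.of_in h₃) (K.op _ _ _ h₄)).mono fun y hy => (hZ _ _).2 ⟨h₁, h₂, hy⟩
  have Zcov : ∀ x, ∃ i p, c p = i ∧ Z p x := fun x => by
    obtain ⟨B, n, h₁, h₂, h₃⟩ := cov x
    obtain ⟨m, d, hm, hG⟩ := K.often x n
    exact ⟨_, (m, d, B), rfl, (hZ _ _).2 ⟨h₃, H.mono _ _ _ h₁ hm, h₂, hG⟩⟩
  obtain ⟨S, tS, h₁, h₂⟩ := K.perfect H hB (U := fun i x => ∃ p, c p = i ∧ Z p x) (by fun_prop)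
    fun i x ⟨p, e, h⟩ => (Zop p x h).mono fun y hy => ⟨p, e, hy⟩
  refine ⟨fun p x => Z p x ∧ Nb In (fun z => ∀ i, i < c p → ¬ S i (c p) z) x, by fun_prop,
    fun p x h => H.and (Zop p x h.1) h.2.nb, fun x => ?_, fun x => ?_, fun p x h => ?_⟩
  · obtain ⟨p, e, h⟩ := Nat.find_spec (Zcov x)
    exact ⟨p, h, H.fin (Set.finite_Iio (c p)) fun i hi =>
      h₂ i _ x (Nat.find_min (Zcov x) (e ▸ hi))⟩
  · obtain ⟨i, hi⟩ := Zcov x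
    obtain ⟨j, hj⟩ := h₁ i x hi
    refine Set.Finite.of_injOn (f := c) (t := Set.Iic (max i j)) (fun p hp => ?_)
      (fun p hp q hq => hc p q x hp.1 hq.1) (Set.finite_Iic _)
    by_contra h
    have h : max i j < c p := not_le.1 h
    exact hp.2.self i (lt_of_le_of_lt (le_max_left _ _) h)
      (hj _ ((le_max_right _ _).trans h.le))
  · obtain ⟨k₁, -, k₂, -⟩ := (hZ _ _).1 h.1
    exact ⟨k₁, k₂⟩

end Coded

theorem isOmega_om : IsOmega g.E g.om := by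
  refine ⟨isOrd_setN Name.natWf natTri g.omega_mem fun _ _ _ _ => trivial, ⟨_, nat_om 0⟩,
    fun x hx => ?_, fun x hx ⟨y, hy⟩ => ?_⟩
  · obtain ⟨n, rfl⟩ := E_om.1 hx
    exact ⟨_, nat_om (n + 1), nat_lt.2 (Nat.lt_succ_self n)⟩
  · obtain ⟨n, rfl⟩ := E_om.1 hx
    obtain ⟨m, hm, -⟩ := E_nat.1 hy
    refine ⟨g.nat (n - 1), nat_lt.2 (by omega), fun z hz => ?_⟩
    obtain ⟨k, hk, rfl⟩ := E_nat.1 hz
    rw [nat_lt]
    omega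

section Internal

variable {X T : g.M} {pt : W.T → g.M}

theorem exists_open (tpt : g.Tm pt) (hT : IsTop g.E X T) {Q : W.T → Prop} (tQ : g.Tm Q)
    (h : ∀ x, Q x → Nb (fun a (U : g.Elt T) => g.E (pt a) U.1) Q x) :
    ∃ V, g.E V T ∧ ∀ x, g.E (pt x) V ↔ Q x := by
  obtain ⟨S, hS⟩ := tm_sep (Q := fun V => ∀ a, g.E (pt a) V → Q a) (by fun_prop) T
  obtain ⟨V, hV, e⟩ := hT.2.2.1 S fun x hx => ((hS x).1 hx).1
  refine ⟨V, hV, fun x => (e _).trans ⟨fun ⟨U, h₁, h₂⟩ => ((hS U).1 h₁).2 x h₂, fun hx => ?_⟩⟩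
  obtain ⟨U, h₁, h₂⟩ := h x hx
  exact ⟨U.1, (hS _).2 ⟨U.2, h₂⟩, h₁⟩

theorem open_ext (hpt : ∀ y, g.E y X → ∃ a, pt a = y) (hT : IsTop g.E X T) {U V : g.M}
    (hU : g.E U T) (hV : g.E V T) (h : ∀ a, g.E (pt a) U ↔ g.E (pt a) V) : U = V := by
  refine ext fun y => ⟨fun hy => ?_, fun hy => ?_⟩
  · obtain ⟨a, rfl⟩ := hpt y (hT.1 U hU y hy)
    exact (h a).1 hy
  · obtain ⟨a, rfl⟩ := hpt y (hT.1 V hV y hy)
    exact (h a).2 hy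

theorem exists_hyp (tpt : g.Tm pt) (hX : ∀ a, g.E (pt a) X) (hT : IsTop g.E X T)
    (hR : IsRegT1 g.E X T) (hB : HasSigmaBase g.E g.om X T) :
    ∃ L, Hyp (fun a (U : g.Elt T) => g.E (pt a) U.1) L := by
  classical
  obtain ⟨S, hS, h₁, h₂⟩ := hB
  obtain ⟨f, tf, hf⟩ := ctbl_iff.1 hS
  have inter : ∀ x (U V : g.Elt T), g.E (pt x) U.1 → g.E (pt x) V.1 → ∃ U' : g.Elt T,
      g.E (pt x) U'.1 ∧ ∀ y, g.E (pt y) U'.1 → g.E (pt y) U.1 ∧ g.E (pt y) V.1 := by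
    intro x U V hU hV
    obtain ⟨U', h, e⟩ := hT.2.2.2 _ _ U.2 V.2
    exact ⟨⟨U', h⟩, (e _).2 ⟨hU, hV⟩, fun y hy => (e _).1 hy⟩
  refine ⟨fun B n => ∃ B₀, g.E B₀ S ∧ f B₀ < n ∧ g.E B.1 B₀, by fun_prop, by fun_prop,
    fun B n m ⟨B₀, k₁, k₂, k₃⟩ h => ⟨B₀, k₁, k₂.trans_le h, k₃⟩, fun x U h => ?_, inter,
    fun x n => ?_, fun x U h => ?_⟩
  · obtain ⟨B₀, V, k₁, k₂, k₃, k₄⟩ := h₂ _ _ U.2 h
    exact ⟨⟨V, (h₁ B₀ k₁).1 V k₂⟩, f B₀ + 1, ⟨B₀, k₁, Nat.lt_succ_self _, k₂⟩, k₃,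
      fun y hy => k₄ _ hy⟩
  · induction n with
    | zero =>
      exact ⟨⟨X, hT.2.1⟩, hX x, fun _ => 0, by fun_prop,
        fun B _ _ _ ⟨_, _, h, _⟩ => absurd h (Nat.not_lt_zero _)⟩
    | succ n ih =>
      obtain ⟨U, hU, F, tF, hF⟩ := ih
      by_cases h : ∃ B₁, g.E B₁ S ∧ f B₁ = n
      · obtain ⟨B₁, k₁, k₂⟩ := h
        obtain ⟨V, hV, hxV, c, hc, hc'⟩ := (h₁ B₁ k₁).2 _ (hX x)
        obtain ⟨F', tF', hF'⟩ := ctbl_iff.1 hc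
        obtain ⟨U', hU', e⟩ := inter x U ⟨V, hV⟩ hU hxV
        refine ⟨U', hU', fun B => if g.E B.1 B₁ then 2 * F' B.1 else 2 * F B + 1, by fun_prop, ?_⟩
        rintro B B' y y' ⟨B₀, a₁, a₂, a₃⟩ ⟨B₀', b₁, b₂, b₃⟩ a₄ a₅ b₄ b₅ h
        dsimp only at h
        split_ifs at h with c₁ c₂ c₂
        · exact Subtype.ext (hF' _ _ (hc' _ c₁ ⟨_, (e y a₅).2, a₄⟩)
            (hc' _ c₂ ⟨_, (e y' b₅).2, b₄⟩) (by omega))
        · omega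
        · omega
        · have d₁ : f B₀ ≠ n := fun h' => c₁ (hf _ _ a₁ k₁ (h'.trans k₂.symm) ▸ a₃)
          have d₂ : f B₀' ≠ n := fun h' => c₂ (hf _ _ b₁ k₁ (h'.trans k₂.symm) ▸ b₃)
          exact hF B B' y y' ⟨B₀, a₁, by omega, a₃⟩ ⟨B₀', b₁, by omega, b₃⟩ a₄ (e y a₅).1 b₄
            (e y' b₅).1 (by omega)
      · refine ⟨U, hU, F, tF, ?_⟩
        rintro B B' y y' ⟨B₀, a₁, a₂, a₃⟩ ⟨B₀', b₁, b₂, b₃⟩
        have d₁ : f B₀ ≠ n := fun h' => h ⟨_, a₁, h'⟩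
        have d₂ : f B₀' ≠ n := fun h' => h ⟨_, b₁, h'⟩
        exact hF B B' y y' ⟨B₀, a₁, by omega, a₃⟩ ⟨B₀', b₁, by omega, b₃⟩
  · obtain ⟨V, V', k₁, k₂, k₃, k₄, k₅⟩ := hR.2 _ _ U.2 h
    exact ⟨⟨V, k₁⟩, k₃, fun y hy => ⟨⟨V', k₂⟩, k₄ _ (hX y) hy, fun z hz hz' => k₅ _ ⟨hz', hz⟩⟩⟩

end Internal

/-- The internal theorem: the two principles make all the spaces perfect and metacompact. -/
theorem perfect_and_metacompact (W : W1 g) (hB : PrB g.E g.om W.w) (hS : PrStar g.E g.om W.w)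
    (X T : g.M) (hX : ∃ h, IsInj g.E h W.w X ∧ ∀ y, g.E y X → ∃ a, App g.E h a y)
    (hT : IsTop g.E X T) (hR : IsRegT1 g.E X T) (hb : HasSigmaBase g.E g.om X T) :
    IsPerfect g.E g.om X T ∧ IsMetacompact g.E g.om X T := by
  obtain ⟨h, hh, hs⟩ := hX
  obtain ⟨pt, tpt, h₁, h₂⟩ : ∃ pt : W.T → g.M, g.Tm pt ∧ (∀ a, g.E (pt a) X) ∧
      ∀ y, g.E y X → ∃ a, pt a = y := by
    refine ⟨fun a => ev g.M g.M h (ι a), by fun_prop,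
      fun a => (fun_mem hh.1 (app_ev hh.1 (ι_mem a))).2, fun y hy => ?_⟩
    obtain ⟨a, ha⟩ := hs y hy
    obtain ⟨a, rfl⟩ := exists_T (fun_mem hh.1 ha).1
    exact ⟨a, fun_uniq hh.1 (app_ev hh.1 (ι_mem a)) ha⟩
  obtain ⟨L, H⟩ := exists_hyp tpt h₁ hT hR hb
  obtain ⟨G, cd, K⟩ := H.exists_key (dStar_of hS)
  have tIn := H.tIn
  constructor
  · intro U hU
    obtain ⟨S, tS, k₁, k₂⟩ := K.perfect H (dB_of hB) (U := fun _ x => g.E (pt x) U) (by fun_prop)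
      fun _ x hx => ⟨⟨U, hU⟩, hx, fun _ hy => hy⟩
    obtain ⟨O, tO, hO⟩ := tm_choice (g := g) (Q := fun (j : ℕ) (V : g.M) => g.E V T ∧
      ∀ x, g.E (pt x) V ↔ Nb (fun a (U : g.Elt T) => g.E (pt a) U.1) (fun z => ¬ S 0 j z) x)
      (by fun_prop) fun j => exists_open tpt hT (by fun_prop) fun _ h => h.nb
    obtain ⟨O', hO'⟩ := tm_image (Q := fun _ => True) (by fun_prop) tO
    obtain ⟨jj, tjj, hjj⟩ := tm_choice (g := g) (Q := fun (V : g.Elt O') (j : ℕ) => O j = V.1)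
      (by fun_prop) fun V => by simpa using (hO' _).1 V.2
    have : Nonempty (g.Elt O') := ⟨⟨O 0, (hO' _).2 ⟨0, trivial, rfl⟩⟩⟩
    refine ⟨O', fun V hV => ?_, ctbl_iff.2 ⟨fun x => jj (un _ x), by fun_prop,
      fun V V' hV hV' e => ?_⟩, fun y hy => ?_⟩
    · obtain ⟨j, -, rfl⟩ := (hO' _).1 hV
      exact (hO j).1
    · have e₁ := un_ι (g := g) (α := g.Elt O') ⟨V, hV⟩
      have e₂ := un_ι (g := g) (α := g.Elt O') ⟨V', hV'⟩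
      rw [ι_elt] at e₁ e₂
      dsimp only at e e₁ e₂
      rw [e₁, e₂] at e
      exact (hjj ⟨V, hV⟩).symm.trans (e ▸ hjj ⟨V', hV'⟩)
    · obtain ⟨a, rfl⟩ := h₂ y hy
      refine ⟨fun ha V hV => ?_, fun ha hU => ?_⟩
      · obtain ⟨j, -, rfl⟩ := (hO' _).1 hV
        exact ((hO j).2 a).2 (k₂ 0 j a ha)
      · obtain ⟨j, hj⟩ := k₁ 0 a hU
        exact (((hO j).2 a).1 (ha _ ((hO' _).2 ⟨j, trivial, rfl⟩))).self (hj j le_rfl)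
  · intro C hC cov
    obtain ⟨Y, tY, k₁, k₂, k₃, k₄⟩ := K.metacompact H (dB_of hB)
      (Rf := fun B => ∃ U, g.E U C ∧ ∀ a, g.E (pt a) B.1 → g.E (pt a) U) (by fun_prop) fun x => by
        obtain ⟨U, hU, hx⟩ := cov _ (h₁ x)
        obtain ⟨B, n, a₁, a₂, a₃⟩ := H.base x ⟨U, hC U hU⟩ hx
        exact ⟨B, n, a₁, a₂, U, hU, a₃⟩
    obtain ⟨R, hR⟩ := tm_sep (Q := fun V => ∃ p x₀, Y p x₀ ∧ ∀ x, g.E (pt x) V ↔ Y p x)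
      (by fun_prop) T
    refine ⟨R, fun V hV => ((hR V).1 hV).1, fun y hy => ?_, fun V hV => ?_, fun y hy => ?_⟩
    · obtain ⟨a, rfl⟩ := h₂ y hy
      obtain ⟨p, hp⟩ := k₂ a
      obtain ⟨V, hV, e⟩ := exists_open tpt hT (Q := Y p) (by fun_prop) (k₁ p)
      exact ⟨V, (hR V).2 ⟨hV, p, a, hp, e⟩, (e a).2 hp⟩
    · obtain ⟨hV, p, a, hp, e⟩ := (hR V).1 hV
      obtain ⟨U, hU, h'⟩ := (k₄ p a hp).1
      refine ⟨U, hU, fun y hy => ?_⟩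
      obtain ⟨b, rfl⟩ := h₂ y (hT.1 V hV y hy)
      exact h' b (k₄ p b ((e b).1 hy)).2
    · obtain ⟨a, rfl⟩ := h₂ y hy
      refine exists_fin (S := {V | g.E V R ∧ g.E (pt a) V}) (((k₃ a).biUnion
        (t := fun p => {V | g.E V T ∧ ∀ x, g.E (pt x) V ↔ Y p x}) fun p _ =>
          Set.Subsingleton.finite fun U hU V hV => open_ext h₂ hT hU.1 hV.1 fun b =>
            (hU.2 b).trans (hV.2 b).symm).subset ?_)
      rintro V ⟨hV, ha⟩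
      obtain ⟨hV, p, -, -, e⟩ := (hR V).1 hV
      exact Set.mem_biUnion ((e a).1 ha) ⟨hV, e⟩

end Pool.Agent.MP_5a4599_gt

end
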