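import Mathlib
import Pool.Agent.Mg.F5a4599.Gff9e07
import Pool.Agent.MP_c6cf52_lc.Tools

section

namespace Pool.Agent.MP_5a4599_gt

open Set Ordinal

/-- Positions of the iteration. -/
abbrev K : Type 1 := Ordinal.{0}

/-- Countable ordinals. -/
abbrev W : Type 1 := Set.Iio (ω₁ : Ordinal.{0})

/-- Atomic pieces of information about one generic object. -/
inductive Atom : Type 1
  | pt (d : W) : Atom
  | gap (a b : W) : Atom
  | eq (n m : ℕ) : Atom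
  | ge (n m : ℕ) : Atom

instance : Small.{0} Atom :=
  small_of_surjective (f := (Sum.elim (Sum.elim Atom.pt (fun x : W × W => Atom.gap x.1 x.2))
    (Sum.elim (fun x : ℕ × ℕ => Atom.eq x.1 x.2) (fun x : ℕ × ℕ => Atom.ge x.1 x.2)))) (by
    rintro (d | ⟨a, b⟩ | ⟨n, m⟩ | ⟨n, m⟩)
    exacts [⟨.inl (.inl d), rfl⟩, ⟨.inl (.inr (a, b)), rfl⟩, ⟨.inr (.inl (n, m)), rfl⟩,
      ⟨.inr (.inr (n, m)), rfl⟩])

def Con : Atom → Atom → Prop
  | .pt d, .gap a b => ¬ (a < d ∧ d ≤ b)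
  | .gap a b, .pt d => ¬ (a < d ∧ d ≤ b)
  | .eq n m, .eq n' m' => n = n' → m = m'
  | .eq n m, .ge n' m' => n = n' → m' ≤ m
  | .ge n' m', .eq n m => n = n' → m' ≤ m
  | _, _ => True

theorem Con.symm {a b : Atom} (h : Con a b) : Con b a := by
  cases a <;> cases b <;> simp_all [Con]

def cl : Atom → ℕ
  | .ge n _ => n + 1
  | _ => 0

inductive Pre : Type 1
  | mk (ι : Type) (co : ι → K) (c : ι → Pre) (a : ι → Atom) : Pre

def Pre.ent : Pre → Set (K × Pre × Atom)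
  | .mk _ co c a => range fun i => (co i, c i, a i)

instance (p : Pre) : Small.{0} p.ent := by
  cases p; exact small_range _

open Classical in
noncomputable def canon (X : Set (K × Pre × Atom)) : Pre :=
  if _h : Small.{0} X then
    .mk (Shrink.{0} X) (fun i => ((equivShrink X).symm i).1.1)
      (fun i => ((equivShrink X).symm i).1.2.1) (fun i => ((equivShrink X).symm i).1.2.2)
  else .mk PEmpty PEmpty.elim PEmpty.elim PEmpty.elim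

theorem ent_canon {X : Set (K × Pre × Atom)} (h : Small.{0} X) : (canon X).ent = X := by
  unfold canon
  rw [dif_pos h]
  ext x
  simp only [Pre.ent, mem_range, Prod.mk.eta]
  constructor
  · rintro ⟨i, rfl⟩; exact Subtype.prop _
  · intro hx; exact ⟨equivShrink X ⟨x, hx⟩, by simp⟩

structure St where
  V : Pre → Prop
  L : Pre → Pre → Prop

def DecOf (s : St) (β : K) (p r : Pre) (a : Atom) : Prop :=
  ∀ r', s.V r' → s.L r' r → ∃ r'', s.V r'' ∧ s.L r'' r' ∧ ∃ c, (β, c, a) ∈ p.ent ∧ s.L r'' c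

def GoodOf (s : St) (β : K) (p : Pre) : Prop :=
  ∀ r, s.V r → s.L r p → (∀ a b, DecOf s β p r a → DecOf s β p r b → Con a b) ∧
    ∀ k, ∃ r', s.V r' ∧ s.L r' r ∧ ∃ T : Set Atom, T.Finite ∧
      ∀ r'', s.V r'' → s.L r'' r' → ∀ a, cl a = k → DecOf s β p r'' a → a ∈ T

noncomputable def st : K → St :=
  (wellFounded_lt (α := K)).fix fun α ih =>
    ⟨fun p => {β | ∃ h : β < α, ∃ r a, (ih β h).V r ∧ DecOf (ih β h) β p r a}.Countable ∧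
        ∀ β (h : β < α), GoodOf (ih β h) β p,
      fun q p => ∀ β (h : β < α), ∀ r, (ih β h).V r → (ih β h).L r q →
        ∀ a, DecOf (ih β h) β p r a → DecOf (ih β h) β q r a⟩

def V (α : K) (p : Pre) : Prop := (st α).V p
def L (α : K) (q p : Pre) : Prop := (st α).L q p
def Dec (β : K) (p r : Pre) (a : Atom) : Prop := DecOf (st β) β p r a
def Good (β : K) (p : Pre) : Prop := GoodOf (st β) β p
def supp (p : Pre) : Set K := {β | ∃ r a, V β r ∧ Dec β p r a}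

theorem Dec_def {β : K} {p r : Pre} {a : Atom} : Dec β p r a ↔
    ∀ r', V β r' → L β r' r → ∃ r'', V β r'' ∧ L β r'' r' ∧
      ∃ c, (β, c, a) ∈ p.ent ∧ L β r'' c := Iff.rfl

theorem Good_def {β : K} {p : Pre} : Good β p ↔
    ∀ r, V β r → L β r p → (∀ a b, Dec β p r a → Dec β p r b → Con a b) ∧
      ∀ k, ∃ r', V β r' ∧ L β r' r ∧ ∃ T : Set Atom, T.Finite ∧
        ∀ r'', V β r'' → L β r'' r' → ∀ a, cl a = k → Dec β p r'' a → a ∈ T := Iff.rfl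

theorem V_iff {α : K} {p : Pre} :
    V α p ↔ (supp p ∩ Iio α).Countable ∧ ∀ β < α, Good β p := by
  unfold V
  conv_lhs => unfold st; rw [WellFounded.fix_eq]
  have : supp p ∩ Iio α =
      {β | ∃ _ : β < α, ∃ r a, (st β).V r ∧ DecOf (st β) β p r a} := by
    ext β; simp only [supp, mem_inter_iff, mem_ofPred_eq, mem_Iio, exists_prop]
    exact and_comm
  rw [this]
  rfl

theorem L_iff {α : K} {q p : Pre} :
    L α q p ↔ ∀ β < α, ∀ r, V β r → L β r q → ∀ a, Dec β p r a → Dec β q r a := by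
  unfold L
  conv_lhs => unfold st; rw [WellFounded.fix_eq]
  rfl

theorem V.mono {α β : K} {p : Pre} (h : V α p) (hβ : β ≤ α) : V β p := by
  rw [V_iff] at h ⊢
  exact ⟨h.1.mono (inter_subset_inter_right _ (Iio_subset_Iio hβ)),
    fun γ hγ => h.2 γ (hγ.trans_le hβ)⟩

theorem L.mono {α β : K} {q p : Pre} (h : L α q p) (hβ : β ≤ α) : L β q p := by
  rw [L_iff] at h ⊢
  exact fun γ hγ => h γ (hγ.trans_le hβ)

theorem L.rfl {α : K} {p : Pre} : L α p p := L_iff.2 fun _ _ _ _ _ _ h => h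

theorem L.trans {α : K} : ∀ {r q p : Pre}, L α r q → L α q p → L α r p := by
  induction α using WellFoundedLT.induction with
  | ind α ih =>
    intro r q p h₁ h₂
    rw [L_iff]
    intro β hβ s hs hsr a ha
    exact L_iff.1 h₁ β hβ s hs hsr a
      (L_iff.1 h₂ β hβ s hs (ih β hβ hsr (h₁.mono hβ.le)) a ha)

theorem L.dec {α β : K} {q p r : Pre} {a : Atom} (h : L α q p) (hβ : β < α) (hr : V β r)
    (hrq : L β r q) (ha : Dec β p r a) : Dec β q r a := L_iff.1 h β hβ r hr hrq a ha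

theorem V.good {α β : K} {p : Pre} (h : V α p) (hβ : β < α) : Good β p := (V_iff.1 h).2 β hβ

theorem Dec.mono {β : K} {p r r' : Pre} {a : Atom} (h : Dec β p r a) (hr : L β r' r) :
    Dec β p r' a := fun s hs hsr => h s hs (L.trans hsr hr)

/-- Densely many extensions satisfy `Φ`. -/
def Dns (β : K) (r : Pre) (Φ : Pre → Prop) : Prop :=
  ∀ r', V β r' → L β r' r → ∃ r'', V β r'' ∧ L β r'' r' ∧ Φ r''

theorem Dns.mono {β : K} {r r' : Pre} {Φ : Pre → Prop} (h : Dns β r Φ) (hr : L β r' r) :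
    Dns β r' Φ := fun s hs hsr => h s hs (L.trans hsr hr)

theorem Dns.imp {β : K} {r : Pre} {Φ Ψ : Pre → Prop} (h : Dns β r Φ)
    (H : ∀ s, V β s → L β s r → Φ s → Ψ s) : Dns β r Ψ := by
  intro s hs hsr
  obtain ⟨t, ht, hts, h⟩ := h s hs hsr
  exact ⟨t, ht, hts, H t ht (hts.trans hsr) h⟩

theorem Dns.of_all {β : K} {r : Pre} {Φ : Pre → Prop} (H : ∀ s, V β s → L β s r → Φ s) :
    Dns β r Φ := fun s hs hsr => ⟨s, hs, L.rfl, H s hs hsr⟩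

theorem Dns.join {β : K} {r : Pre} {Φ : Pre → Prop} (h : Dns β r fun s => Dns β s Φ) :
    Dns β r Φ := by
  intro s hs hsr
  obtain ⟨t, ht, hts, h⟩ := h s hs hsr
  obtain ⟨u, hu, hut, h⟩ := h t ht L.rfl
  exact ⟨u, hu, hut.trans hts, h⟩

theorem Dec.reg {β : K} {p r : Pre} {a : Atom} (h : Dns β r fun s => Dec β p s a) :
    Dec β p r a := Dns.join (Φ := fun r'' => ∃ c, (β, c, a) ∈ p.ent ∧ L β r'' c) h

/-- `p` and `q` agree at position `β`. -/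
def Agr (β : K) (p q : Pre) : Prop := ∀ r a, V β r → (Dec β p r a ↔ Dec β q r a)

theorem Agr.symm {β : K} {p q : Pre} (h : Agr β p q) : Agr β q p :=
  fun r a hr => (h r a hr).symm

theorem Agr.trans {β : K} {p q s : Pre} (h : Agr β p q) (h' : Agr β q s) : Agr β p s :=
  fun r a hr => (h r a hr).trans (h' r a hr)

theorem Agr.rfl {β : K} {p : Pre} : Agr β p p := fun _ _ _ => Iff.rfl

theorem L_of_agr {α : K} {p q : Pre} (h : ∀ β < α, Agr β p q) : L α p q :=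
  L_iff.2 fun β hβ r hr _ a ha => (h β hβ r a hr).2 ha

theorem L_of_agr' {α : K} {p q : Pre} (h : ∀ β < α, Agr β p q) : L α q p :=
  L_of_agr fun β hβ => (h β hβ).symm

theorem Good.of_agr {β : K} {p q : Pre} (h : Good β p) (hl : L β q p) (ha : Agr β q p) :
    Good β q := by
  intro r hr hrq
  obtain ⟨h₁, h₂⟩ := h r hr (L.trans hrq hl)
  refine ⟨fun a b h₃ h₄ => h₁ a b ((ha r a hr).1 h₃) ((ha r b hr).1 h₄), fun k => ?_⟩
  obtain ⟨r', hr', hl', T, hT, H⟩ := h₂ k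
  exact ⟨r', hr', hl', T, hT, fun s hs hsr a hk h => H s hs hsr a hk ((ha s a hs).1 h)⟩

theorem mem_supp_of_agr {β : K} {p q : Pre} (ha : Agr β p q) (h : β ∈ supp p) : β ∈ supp q := by
  obtain ⟨r, a, hr, h⟩ := h
  exact ⟨r, a, hr, (ha r a hr).1 h⟩

theorem V.of_agr {α : K} {p q : Pre} (h : V α p) (ha : ∀ β < α, Agr β q p) : V α q := by
  rw [V_iff] at h ⊢
  refine ⟨h.1.mono fun β hβ => mem_inter (mem_supp_of_agr (ha β hβ.2) hβ.1) hβ.2, fun β hβ => ?_⟩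
  exact (h.2 β hβ).of_agr (L_of_agr fun γ hγ => ha γ (hγ.trans hβ)) (ha β hβ)

theorem not_dec_of_notMem_supp {β : K} {p r : Pre} {a : Atom} (h : β ∉ supp p) (hr : V β r) :
    ¬ Dec β p r a := fun h' => h ⟨r, a, hr, h'⟩

theorem good_of_notMem_supp {β : K} {p : Pre} (h : β ∉ supp p) : Good β p := by
  intro r hr _
  refine ⟨fun a _ ha _ => absurd ha (not_dec_of_notMem_supp h hr), fun k => ?_⟩
  exact ⟨r, hr, L.rfl, ∅, finite_empty,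
    fun s hs _ a _ ha => absurd ha (not_dec_of_notMem_supp h hs)⟩

theorem exists_bound (p : Pre) : ∃ α : K, supp p ⊆ Iio α := by
  obtain ⟨α, hα⟩ : BddAbove (Prod.fst '' p.ent) := Ordinal.bddAbove_of_small
  refine ⟨Order.succ α, fun β ⟨r, a, hr, h⟩ => ?_⟩
  obtain ⟨s, -, -, c, hc, -⟩ := h r hr L.rfl
  exact Order.lt_succ_iff.2 (hα ⟨_, hc, rfl⟩)

/-! ### Normal forms -/

noncomputable def S : K → Set Pre :=
  (wellFounded_lt (α := K)).fix fun α ih =>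
    canon '' {X | ∀ x ∈ X, ∃ h : x.1 < α, x.2.1 ∈ ih x.1 h}

theorem S_eq (α : K) : S α = canon '' {X | ∀ x ∈ X, x.1 < α ∧ x.2.1 ∈ S x.1} := by
  conv_lhs => unfold S; rw [WellFounded.fix_eq]
  simp only [exists_prop]
  rfl

theorem small_base {α : K} (ih : ∀ β < α, Small.{0} (S β)) :
    Small.{0} {x : K × Pre × Atom | x.1 < α ∧ x.2.1 ∈ S x.1} := by
  have : ∀ β : Iio α, Small.{0} (S β.1) := fun β => ih β.1 β.2
  refine small_of_surjective (f := fun y : Σ β : Iio α, S β.1 × Atom =>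
    (⟨(y.1.1, y.2.1.1, y.2.2), y.1.2, y.2.1.2⟩ :
      {x : K × Pre × Atom | x.1 < α ∧ x.2.1 ∈ S x.1})) ?_
  rintro ⟨⟨β, c, a⟩, h₁, h₂⟩
  exact ⟨⟨⟨β, h₁⟩, ⟨c, h₂⟩, a⟩, rfl⟩

theorem small_S (α : K) : Small.{0} (S α) := by
  induction α using WellFoundedLT.induction with
  | ind α ih =>
    rw [S_eq]
    have := small_base ih
    have h : Small.{0} (𝒫 {x : K × Pre × Atom | x.1 < α ∧ x.2.1 ∈ S x.1}) := inferInstance
    exact @small_image _ _ _ _ h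

theorem exists_cond_aux {α : K}
    (nf : ∀ β < α, ∀ r, V β r → ∃ s ∈ S β, ∀ γ < β, Agr γ s r) (Φ : K → Pre → Atom → Prop)
    (hΦ : ∀ β r r' a, Φ β r a → V β r' → L β r' r → Φ β r' a) :
    ∃ p ∈ S α, ∀ β r a, V β r → (Dec β p r a ↔ β < α ∧ Dns β r fun s => Φ β s a) := by
  let X : Set (K × Pre × Atom) :=
    {x | (x.1 < α ∧ x.2.1 ∈ S x.1) ∧ V x.1 x.2.1 ∧ Φ x.1 x.2.1 x.2.2}
  have hX : Small.{0} X := by
    have := small_base (α := α) fun β _ => small_S β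
    exact small_subset (t := X) (s := {x : K × Pre × Atom | x.1 < α ∧ x.2.1 ∈ S x.1})
      fun x hx => hx.1
  refine ⟨canon X, S_eq α ▸ ⟨X, fun x hx => hx.1, rfl⟩, fun β r a hr => ?_⟩
  rw [Dec_def, ent_canon hX]
  constructor
  · intro h
    obtain ⟨-, -, -, c, hc, -⟩ := h r hr L.rfl
    refine ⟨hc.1.1, fun s hs hsr => ?_⟩
    obtain ⟨t, ht, hts, c, hc, htc⟩ := h s hs hsr
    exact ⟨t, ht, hts, hΦ β c t a hc.2.2 ht htc⟩
  · rintro ⟨hβ, h⟩ s hs hsr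
    obtain ⟨t, ht, hts, h⟩ := h s hs hsr
    obtain ⟨c, hc, hct⟩ := nf β hβ t ht
    exact ⟨t, ht, hts, c, ⟨⟨hβ, hc⟩, ht.of_agr hct, hΦ β t c a h (ht.of_agr hct) (L_of_agr hct)⟩,
      L_of_agr' hct⟩

theorem dns_dec_iff {β : K} {p r : Pre} {a : Atom} :
    (Dns β r fun s => Dec β p s a) ↔ Dec β p r a :=
  ⟨Dec.reg, fun h => Dns.of_all fun _ _ hs => h.mono hs⟩

theorem exists_nf_aux (α : K) : ∀ r, ∃ s ∈ S α, ∀ γ < α, Agr γ s r := by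
  induction α using WellFoundedLT.induction with
  | ind α ih =>
    intro r
    obtain ⟨p, hp, h⟩ := exists_cond_aux (α := α) (fun β hβ r _ => ih β hβ r)
      (fun β s a => Dec β r s a) (fun β s s' a h _ hl => h.mono hl)
    exact ⟨p, hp, fun γ hγ s a hs => by rw [h γ s a hs, dns_dec_iff]; simp [hγ]⟩

/-- Conditions can be given by arbitrary monotone relations. -/
theorem exists_cond (α : K) (Φ : K → Pre → Atom → Prop)
    (hΦ : ∀ β r r' a, Φ β r a → V β r' → L β r' r → Φ β r' a) :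
    ∃ p ∈ S α, ∀ β r a, V β r → (Dec β p r a ↔ β < α ∧ Dns β r fun s => Φ β s a) :=
  exists_cond_aux (fun β _ r _ => exists_nf_aux β r) Φ hΦ

/-- Restriction in normal form. -/
theorem exists_nf (α : K) (r : Pre) : ∃ s ∈ S α, (∀ γ < α, Agr γ s r) ∧ supp s ⊆ Iio α := by
  obtain ⟨p, hp, h⟩ := exists_cond α (fun β s a => Dec β r s a) (fun β s s' a h _ hl => h.mono hl)
  refine ⟨p, hp, fun γ hγ s a hs => by rw [h γ s a hs, dns_dec_iff]; simp [hγ], ?_⟩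
  rintro β ⟨s, a, hs, h'⟩
  exact ((h β s a hs).1 h').1

/-- Change of one coordinate. -/
theorem exists_modify (β : K) (r s : Pre) (Φ : Pre → Atom → Prop)
    (hΦ : ∀ x x' a, Φ x a → V β x' → L β x' x → Φ x' a) :
    ∃ t, (∀ γ < β, Agr γ t r) ∧ (∀ x a, V β x → (Dec β t x a ↔ Dns β x fun y => Φ y a)) ∧
      ∀ γ, β < γ → Agr γ t s := by
  obtain ⟨α₀, h₀⟩ := exists_bound s
  obtain ⟨t, -, h⟩ := exists_cond (max α₀ (Order.succ β))
    (fun γ x a => (γ < β ∧ Dec γ r x a) ∨ (γ = β ∧ Φ x a) ∨ (β < γ ∧ Dec γ s x a)) (by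
      rintro γ x x' a (⟨h₁, h₂⟩ | ⟨rfl, h₂⟩ | ⟨h₁, h₂⟩) hx hl
      exacts [Or.inl ⟨h₁, h₂.mono hl⟩, Or.inr (Or.inl ⟨rfl, hΦ _ _ _ h₂ hx hl⟩),
        Or.inr (Or.inr ⟨h₁, h₂.mono hl⟩)])
  have hβ : β < max α₀ (Order.succ β) := lt_max_of_lt_right (Order.lt_succ β)
  refine ⟨t, fun γ hγ x a hx => ?_, fun x a hx => ?_, fun γ hγ x a hx => ?_⟩
  · rw [h γ x a hx]
    simp only [hγ, hγ.ne, hγ.not_gt, hγ.trans hβ, true_and, false_and, or_false, dns_dec_iff]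
  · rw [h β x a hx]
    simp only [hβ, lt_irrefl, true_and, false_and, or_false, false_or]
  · rw [h γ x a hx]
    simp only [hγ, hγ.ne', hγ.not_gt, true_and, false_and, false_or, dns_dec_iff]
    exact ⟨fun h => h.2, fun h => ⟨lt_max_of_lt_left (h₀ ⟨x, a, hx, h⟩), h⟩⟩

theorem modify_le {α β : K} {r s t : Pre} (hrs : L β r s) (h₁ : ∀ γ < β, Agr γ t r)
    (h₂ : ∀ x a, V β x → L β x r → Dec β s x a → Dec β t x a) (h₃ : ∀ γ, β < γ → Agr γ t s) :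
    L α t s := by
  rw [L_iff]
  intro γ _ x hx hxt a ha
  rcases lt_trichotomy γ β with h | rfl | h
  · refine (h₁ γ h x a hx).2 (hrs.dec h hx ?_ ha)
    exact hxt.trans (L_of_agr fun δ hδ => h₁ δ (hδ.trans h))
  · exact h₂ x a hx (hxt.trans (L_of_agr h₁)) ha
  · exact (h₃ γ h x a hx).2 ha

theorem modify_valid {α β : K} {r s t : Pre} (hr : V β r) (hs : V α s) (hrs : L β r s)
    (h₁ : ∀ γ < β, Agr γ t r)
    (h₂ : ∀ x a, V β x → L β x r → Dec β s x a → Dec β t x a) (h₃ : ∀ γ, β < γ → Agr γ t s)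
    (hg : β < α → Good β t) : V α t := by
  rw [V_iff]
  constructor
  · refine (((V_iff.1 hr).1.union (countable_singleton β)).union (V_iff.1 hs).1).mono ?_
    rintro γ ⟨hγ, hγα⟩
    rcases lt_trichotomy γ β with h | rfl | h
    · exact Or.inl (Or.inl ⟨mem_supp_of_agr (h₁ γ h) hγ, h⟩)
    · exact Or.inl (Or.inr rfl)
    · exact Or.inr ⟨mem_supp_of_agr (h₃ γ h) hγ, hγα⟩
  · intro γ hγ
    rcases lt_trichotomy γ β with h | rfl | h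
    · exact (hr.good h).of_agr (L_of_agr fun δ hδ => h₁ δ (hδ.trans h)) (h₁ γ h)
    · exact hg hγ
    · exact (hs.good hγ).of_agr (modify_le hrs h₁ h₂ h₃) (h₃ γ h)

/-- Amalgamation. -/
theorem exists_amalg {β : K} {r s : Pre} (hr : V β r) (hrs : L β r s) :
    ∃ t, (∀ γ < β, Agr γ t r) ∧ (∀ γ, β ≤ γ → Agr γ t s) ∧ (∀ α, L α t s) ∧
      ∀ α, V α s → V α t := by
  obtain ⟨t, h₁, h₂, h₃⟩ := exists_modify β r s (fun x a => Dec β s x a)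
    (fun x x' a h _ hl => h.mono hl)
  have h₂' : Agr β t s := fun x a hx => by rw [h₂ x a hx, dns_dec_iff]
  have hl : ∀ α, L α t s := fun α => modify_le hrs h₁ (fun x a hx _ h => (h₂' x a hx).2 h) h₃
  refine ⟨t, h₁, fun γ hγ => ?_, hl, fun α hs => ?_⟩
  · rcases hγ.eq_or_lt with rfl | h
    exacts [h₂', h₃ γ h]
  · exact modify_valid hr hs hrs h₁ (fun x a hx _ h => (h₂' x a hx).2 h) h₃
      fun h => (hs.good h).of_agr (hl β) h₂'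

/-- The trivial condition. -/
noncomputable def top : Pre := canon ∅

theorem supp_top : supp top = ∅ := by
  ext β
  simp only [mem_empty_iff_false, iff_false]
  rintro ⟨r, a, hr, h⟩
  obtain ⟨s, -, -, c, hc, -⟩ := h r hr L.rfl
  rw [top, ent_canon inferInstance] at hc
  exact hc

theorem V_top (α : K) : V α top :=
  V_iff.2 ⟨by simp [supp_top], fun β _ => good_of_notMem_supp (by simp [supp_top])⟩

theorem L_of_supp {α β : K} {p q : Pre} (h : L β p q) (hq : supp q ∩ Iio α ⊆ Iio β) : L α p q := by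
  rw [L_iff]
  intro γ hγ r hr hrp a ha
  exact h.dec (hq ⟨⟨r, a, hr, ha⟩, hγ⟩) hr hrp ha

theorem L_top (α : K) (p : Pre) : L α p top :=
  L_of_supp (β := 0) (L_iff.2 fun _ h => absurd h (not_lt_of_ge zero_le)) (by simp [supp_top])

theorem V_of_supp {α β : K} {p : Pre} (h : V β p) (hp : supp p ⊆ Iio β) : V α p := by
  rw [V_iff]
  refine ⟨(V_iff.1 h).1.mono fun γ hγ => mem_inter hγ.1 (hp hγ.1), fun γ _ => ?_⟩
  by_cases hγ : γ ∈ supp p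
  · exact h.good (hp hγ)
  · exact good_of_notMem_supp hγ

end Pool.Agent.MP_5a4599_gt

end

section

namespace Pool.Agent.MP_5a4599_gt

open Set Ordinal

theorem W.countable_Iic (x : W) : (Iic x).Countable := by
  have h : (Iic x.1).Countable := by
    rw [← Cardinal.le_aleph0_iff_set_countable, ← Order.Iio_succ, Cardinal.mk_Iio_ordinal]
    have : (Order.succ x.1).card ≤ Cardinal.aleph0 := by
      have h₁ : Order.succ x.1 < ω₁ := (Cardinal.isSuccLimit_omega 1).succ_lt x.2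
      rw [Cardinal.lt_omega_iff_card_lt, ← Cardinal.succ_aleph0, Order.lt_succ_iff] at h₁
      exact h₁
    simpa using Cardinal.lift_le.{1}.2 this
  exact (h.preimage Subtype.val_injective).mono fun y hy => hy

theorem W.exists_gt {s : Set W} (hs : s.Countable) : ∃ b : W, ∀ x ∈ s, x < b := by
  have := hs.to_subtype
  have h : ⨆ x : s, Order.succ x.1.1 < ω₁ :=
    Ordinal.iSup_lt_omega_one fun x => (Cardinal.isSuccLimit_omega 1).succ_lt x.1.2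
  refine ⟨⟨_, h⟩, fun x hx => ?_⟩
  have : Order.succ x.1 ≤ ⨆ x : s, Order.succ x.1.1 :=
    le_ciSup (f := fun x : s => Order.succ x.1.1) Ordinal.bddAbove_of_small ⟨x, hx⟩
  exact (Order.succ_le_iff.1 this : x.1 < _)

def Low (δ : W) : Atom → Prop
  | .pt d => d < δ
  | .gap a b => a < δ ∧ b < δ
  | _ => True

theorem Low.mono {δ δ' : W} {a : Atom} (h : Low δ a) (h' : δ ≤ δ') : Low δ' a := by
  cases a with
  | pt d => exact lt_of_lt_of_le h h'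
  | gap a b => exact ⟨lt_of_lt_of_le h.1 h', lt_of_lt_of_le h.2 h'⟩
  | eq n m => trivial
  | ge n m => trivial

theorem countable_low (δ : W) : {a | Low δ a}.Countable := by
  have h := (W.countable_Iic δ).mono Iio_subset_Iic_self
  refine ((((h.image Atom.pt).union ((h.prod h).image fun x => Atom.gap x.1 x.2)).union
    (countable_range fun x : ℕ × ℕ => Atom.eq x.1 x.2)).union
    (countable_range fun x : ℕ × ℕ => Atom.ge x.1 x.2)).mono ?_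
  rintro (d | ⟨a, b⟩ | ⟨n, m⟩ | ⟨n, m⟩) ha
  exacts [Or.inl (Or.inl (Or.inl ⟨d, ha, rfl⟩)), Or.inl (Or.inl (Or.inr ⟨(a, b), ha, rfl⟩)),
    Or.inl (Or.inr ⟨(n, m), rfl⟩), Or.inr ⟨(n, m), rfl⟩]

theorem exists_low_one (a : Atom) : ∃ ξ, Low ξ a := by
  cases a with
  | pt d =>
    obtain ⟨b, hb⟩ := W.exists_gt (countable_singleton d)
    exact ⟨b, hb d rfl⟩
  | gap a c =>
    obtain ⟨b, hb⟩ := W.exists_gt (toFinite {a, c}).countable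
    exact ⟨b, hb a (by simp), hb c (by simp)⟩
  | eq n m => exact ⟨⟨0, omega_pos 1⟩, trivial⟩
  | ge n m => exact ⟨⟨0, omega_pos 1⟩, trivial⟩

theorem exists_low {T : Set Atom} (hT : T.Countable) : ∃ ξ, ∀ a ∈ T, Low ξ a := by
  choose f hf using exists_low_one
  obtain ⟨b, hb⟩ := W.exists_gt (hT.image f)
  exact ⟨b, fun a ha => (hf a).mono (hb _ ⟨a, ha, rfl⟩).le⟩

theorem exists_low_lt {δ : W} (h0 : ∃ x, x < δ) (hδ : ∀ x < δ, ∃ y < δ, x < y) {T : Set Atom}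
    (hT : T.Finite) (h : ∀ a ∈ T, Low δ a) : ∃ ξ < δ, ∀ a ∈ T, Low ξ a := by
  induction T, hT using Finite.induction_on with
  | empty => obtain ⟨x, hx⟩ := h0; exact ⟨x, hx, by simp⟩
  | @insert a T _ _ ih =>
    obtain ⟨ξ, hξ, H⟩ := ih fun b hb => h b (mem_insert_of_mem _ hb)
    have : ∃ η < δ, Low η a := by
      have ha := h a (mem_insert _ _)
      cases a with
      | pt d => exact hδ d ha
      | gap a c =>
        obtain ⟨y, hy, h'⟩ := hδ (max a c) (max_lt ha.1 ha.2)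
        exact ⟨y, hy, (le_max_left _ _).trans_lt h', (le_max_right _ _).trans_lt h'⟩
      | eq n m => exact ⟨ξ, hξ, trivial⟩
      | ge n m => exact ⟨ξ, hξ, trivial⟩
    obtain ⟨η, hη, hl⟩ := this
    refine ⟨max ξ η, max_lt hξ hη, ?_⟩
    rintro b (rfl | hb)
    exacts [hl.mono (le_max_right _ _), (H b hb).mono (le_max_left _ _)]

abbrev Task : Type 1 := Pre → Pre × W → Prop

/-- Dense tasks. -/
def DT (α : K) (D : Task) : Prop :=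
  (∀ r r' v, D r v → V α r' → L α r' r → D r' v) ∧
    ∀ p, V α p → ∃ r, V α r ∧ L α r p ∧ ∃ v, D r v

def Inc (γ : K) (r p : Pre) : Prop := ¬ ∃ s, V γ s ∧ L γ s r ∧ L γ s p

theorem Inc.mono {γ : K} {r r' p : Pre} (h : Inc γ r p) (hl : L γ r' r) : Inc γ r' p :=
  fun ⟨s, h₁, h₂, h₃⟩ => h ⟨s, h₁, h₂.trans hl, h₃⟩

def T1 (γ : K) (p : Pre) : Task := fun r v =>
  Inc γ r p ∨ ∀ s, V γ s → L γ s r → ∀ a, cl a = 0 → Dec γ p s a → Low v.2 a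

def T2 (γ α : K) (p : Pre) (D : Task) : Task := fun r v =>
  Inc γ r p ∨ (V α v.1 ∧ L α v.1 p ∧ (∃ w, D v.1 w) ∧ L γ r v.1)

def Pi3 (γ : K) (D : Task) (u : Set Atom) (r p : Pre) : Prop :=
  V (Order.succ γ) p ∧ (∃ w, D p w) ∧ L γ r p ∧ (∀ a ∈ u, Dec γ p r a) ∧
    ∀ s, V γ s → L γ s r → ∀ n m, Dec γ p s (.eq n m) → .eq n m ∈ u

def T3 (γ : K) (D : Task) (u : Set Atom) : Task := fun r v =>
  Pi3 γ D u r v.1 ∨ ¬ ∃ s p, V γ s ∧ L γ s r ∧ Pi3 γ D u s p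

def w0 : W := ⟨0, omega_pos 1⟩

theorem dt_T1 {γ : K} {p : Pre} (hp : Good γ p) : DT γ (T1 γ p) := by
  constructor
  · rintro r r' v (h | h) _ hl
    · exact Or.inl (h.mono hl)
    · exact Or.inr fun s hs hsr => h s hs (hsr.trans hl)
  · intro r hr
    by_cases h : Inc γ r p
    · exact ⟨r, hr, L.rfl, (p, w0), Or.inl h⟩
    · obtain ⟨s, hs, h₁, h₂⟩ := not_not.1 h
      obtain ⟨t, ht, hts, T, hT, H⟩ := (Good_def.1 hp s hs h₂).2 0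
      obtain ⟨ξ, hξ⟩ := exists_low hT.countable
      exact ⟨t, ht, hts.trans h₁, (p, ξ), Or.inr fun x hx hxt a ha h => hξ a (H x hx hxt a ha h)⟩

theorem dt_T2 {γ α : K} (hγ : γ ≤ α) {p : Pre} (hp : V α p) {D : Task} (hD : DT α D) :
    DT γ (T2 γ α p D) := by
  constructor
  · rintro r r' v (h | h) _ hl
    · exact Or.inl (h.mono hl)
    · exact Or.inr ⟨h.1, h.2.1, h.2.2.1, hl.trans h.2.2.2⟩
  · intro r hr
    by_cases h : Inc γ r p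
    · exact ⟨r, hr, L.rfl, (p, w0), Or.inl h⟩
    · obtain ⟨s, hs, h₁, h₂⟩ := not_not.1 h
      obtain ⟨t, ht₁, -, ht₃, ht₄⟩ := exists_amalg hs h₂
      obtain ⟨p', hp', hl, v, hv⟩ := hD.2 t (ht₄ α hp)
      exact ⟨p', hp'.mono hγ, ((hl.mono hγ).trans (L_of_agr ht₁)).trans h₁, (p', w0),
        Or.inr ⟨hp', hl.trans (ht₃ α), ⟨v, hv⟩, L.rfl⟩⟩

theorem Pi3.mono {γ : K} {D : Task} {u : Set Atom} {r r' p : Pre} (h : Pi3 γ D u r p)
    (hl : L γ r' r) : Pi3 γ D u r' p :=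
  ⟨h.1, h.2.1, hl.trans h.2.2.1, fun a ha => (h.2.2.2.1 a ha).mono hl,
    fun s hs hsr => h.2.2.2.2 s hs (hsr.trans hl)⟩

theorem dt_T3 (γ : K) (D : Task) (u : Set Atom) : DT γ (T3 γ D u) := by
  constructor
  · rintro r r' v (h | h) _ hl
    · exact Or.inl (h.mono hl)
    · exact Or.inr fun ⟨s, p, h₁, h₂, h₃⟩ => h ⟨s, p, h₁, h₂.trans hl, h₃⟩
  · intro r hr
    by_cases h : ∃ s p, V γ s ∧ L γ s r ∧ Pi3 γ D u s p
    · obtain ⟨s, p, h₁, h₂, h₃⟩ := h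
      exact ⟨s, h₁, h₂, (p, w0), Or.inl h₃⟩
    · exact ⟨r, hr, L.rfl, (r, w0), Or.inr h⟩

/-- A countable system closed under the operations used in the iteration lemma. -/
structure Clo where
  NK : Set K
  NP : Set Pre
  NT : Set Task
  δ : W
  cK : NK.Countable
  cP : NP.Countable
  cT : NT.Countable
  zero : 0 ∈ NK
  top : top ∈ NP
  succ : ∀ γ ∈ NK, Order.succ γ ∈ NK
  pred : ∀ γ, Order.succ γ ∈ NK → γ ∈ NK
  supp : ∀ α ∈ NK, ∀ p ∈ NP, V α p → supp p ∩ Iio α ⊆ NK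
  t1 : ∀ γ ∈ NK, ∀ p ∈ NP, T1 γ p ∈ NT
  t2 : ∀ γ ∈ NK, ∀ α ∈ NK, ∀ p ∈ NP, ∀ D ∈ NT, T2 γ α p D ∈ NT
  t3 : ∀ γ ∈ NK, ∀ D ∈ NT, ∀ u : Set Atom, u.Finite → (∀ a ∈ u, Low δ a) → T3 γ D u ∈ NT
  wit : ∀ D ∈ NT, ∀ p ∈ NP, (∃ v, D p v) → ∃ v, v.1 ∈ NP ∧ v.2 < δ ∧ D p v

theorem exists_closure {X : Type*} (F : X → X → X → X → Set X)
    (hF : ∀ a b c d, (F a b c d).Countable) {S₀ : Set X} (h₀ : S₀.Countable) :
    ∃ N : Set X, N.Countable ∧ S₀ ⊆ N ∧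
      ∀ a ∈ N, ∀ b ∈ N, ∀ c ∈ N, ∀ d ∈ N, F a b c d ⊆ N := by
  let A : ℕ → Set X := fun n => Nat.rec S₀
    (fun _ s => s ∪ ⋃ a ∈ s, ⋃ b ∈ s, ⋃ c ∈ s, ⋃ d ∈ s, F a b c d) n
  have hA : ∀ n, A (n + 1) = A n ∪ ⋃ a ∈ A n, ⋃ b ∈ A n, ⋃ c ∈ A n, ⋃ d ∈ A n, F a b c d :=
    fun n => rfl
  have hc : ∀ n, (A n).Countable := by
    intro n
    induction n with
    | zero => exact h₀
    | succ n ih =>
      rw [hA]
      exact ih.union (ih.biUnion fun a _ => ih.biUnion fun b _ => ih.biUnion fun c _ =>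
        ih.biUnion fun d _ => hF a b c d)
  have hm : Monotone A := monotone_nat_of_le_succ fun n => by rw [hA]; exact subset_union_left
  refine ⟨⋃ n, A n, countable_iUnion hc, subset_iUnion A 0, ?_⟩
  simp only [mem_iUnion]
  rintro a ⟨i, ha⟩ b ⟨j, hb⟩ c ⟨k, hc⟩ d ⟨l, hd⟩ x hx
  let n := max (max i j) (max k l)
  refine mem_iUnion.2 ⟨n + 1, ?_⟩
  rw [hA]
  right
  simp only [mem_iUnion]
  exact ⟨a, hm (by omega) ha, b, hm (by omega) hb, c, hm (by omega) hc, d, hm (by omega) hd, hx⟩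

inductive Ob : Type 1
  | k (x : K) : Ob
  | p (x : Pre) : Ob
  | w (x : W) : Ob
  | t (x : Task) : Ob

def Ob.gk : Ob → K
  | .k x => x
  | _ => 0

noncomputable def Ob.gp : Ob → Pre
  | .p x => x
  | _ => top

def Ob.gw : Ob → W
  | .w x => x
  | _ => w0

def Ob.gt : Ob → Task
  | .t x => x
  | _ => fun _ _ => False

open Classical in
noncomputable def witn (D : Task) (p : Pre) : Pre × W :=
  if h : ∃ v, D p v then h.choose else (p, w0)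

open Classical in
noncomputable def csupp (α : K) (p : Pre) : Set K :=
  if (supp p ∩ Iio α).Countable then supp p ∩ Iio α else ∅

noncomputable def nxt (x : W) : W := (W.exists_gt (countable_singleton x)).choose

theorem lt_nxt (x : W) : x < nxt x := (W.exists_gt (countable_singleton x)).choose_spec x rfl

noncomputable def ops (a b c d : Ob) : Set Ob :=
  {.k (Order.succ a.gk), .k (Ordinal.pred a.gk), .t (T1 a.gk b.gp), .t (T2 a.gk b.gk c.gp d.gt),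
      .p (witn a.gt b.gp).1, .w (witn a.gt b.gp).2} ∪ Ob.k '' csupp a.gk b.gp ∪
    Ob.w '' Iic (nxt a.gw) ∪
    (fun u => Ob.t (T3 a.gk b.gt u)) '' {u | u.Finite ∧ u ⊆ {x | Low c.gw x}}

theorem countable_ops (a b c d : Ob) : (ops a b c d).Countable := by
  refine (((toFinite _).countable.union (Countable.image ?_ _)).union
    ((W.countable_Iic _).image _)).union
    ((countable_ofPred_finite_subset (countable_low _)).image _)
  unfold csupp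
  split_ifs with h
  exacts [h, countable_empty]

theorem exists_clo (α : K) (p : Pre) (D : ℕ → Task) :
    ∃ N : Clo, α ∈ N.NK ∧ p ∈ N.NP ∧ ∀ n, D n ∈ N.NT := by
  obtain ⟨N, hN, h₀, H⟩ := exists_closure ops countable_ops
    (S₀ := {.k 0, .k α, .p p, .p top, .w w0} ∪ range fun n => Ob.t (D n))
    ((toFinite _).countable.union (countable_range _))
  have cW : (Ob.w ⁻¹' N).Countable := hN.preimage fun _ _ h => Ob.w.inj h
  obtain ⟨b, hb⟩ := W.exists_gt cW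
  obtain ⟨δ, hδ, hmin⟩ := (wellFounded_lt (α := W)).has_min {x | Ob.w x ∉ N}
    ⟨b, fun h => lt_irrefl _ (hb b h)⟩
  have hw : ∀ x, Ob.w x ∈ N → ∀ y ≤ nxt x, Ob.w y ∈ N := fun x hx y hy =>
    H _ hx _ hx _ hx _ hx (Or.inl (Or.inr ⟨y, hy, rfl⟩))
  have key : ∀ x, Ob.w x ∈ N ↔ x < δ := by
    intro x
    constructor
    · intro hx
      by_contra h
      exact hδ (hw x hx δ ((not_lt.1 h).trans (lt_nxt x).le))
    · intro hx
      by_contra h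
      exact hmin x h hx
  have z : Ob.k 0 ∈ N := h₀ (by simp)
  refine ⟨⟨Ob.k ⁻¹' N, Ob.p ⁻¹' N, Ob.t ⁻¹' N, δ, hN.preimage fun _ _ h => Ob.k.inj h,
    hN.preimage fun _ _ h => Ob.p.inj h, hN.preimage fun _ _ h => Ob.t.inj h, z, h₀ (by simp),
    ?_, ?_, ?_, ?_, ?_, ?_, ?_⟩, h₀ (by simp), h₀ (by simp), fun n => h₀ (Or.inr ⟨n, rfl⟩)⟩
  · intro γ hγ
    exact H _ hγ _ z _ z _ z (Or.inl (Or.inl (Or.inl (Or.inl rfl))))
  · intro γ hγ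
    have := H _ hγ _ z _ z _ z (Or.inl (Or.inl (Or.inl (Or.inr (Or.inl rfl)))))
    simpa [Ob.gk] using this
  · intro α hα p hp hV β hβ
    refine H _ hα _ hp _ z _ z (Or.inl (Or.inl (Or.inr ⟨β, ?_, rfl⟩)))
    change β ∈ csupp α p
    unfold csupp
    rwa [if_pos (V_iff.1 hV).1]
  · intro γ hγ p hp
    exact H _ hγ _ hp _ z _ z (Or.inl (Or.inl (Or.inl (Or.inr (Or.inr (Or.inl rfl))))))
  · intro γ hγ α hα p hp D hD
    exact H _ hγ _ hα _ hp _ hD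
      (Or.inl (Or.inl (Or.inl (Or.inr (Or.inr (Or.inr (Or.inl rfl)))))))
  · intro γ hγ D hD u hu hl
    obtain ⟨ξ, hξ, h⟩ := exists_low_lt ⟨w0, (key _).1 (h₀ (by simp))⟩
      (fun x hx => ⟨nxt x, (key _).1 (hw x ((key x).2 hx) _ le_rfl), lt_nxt x⟩) hu hl
    exact H _ hγ _ hD _ ((key ξ).2 hξ) _ z (Or.inr ⟨u, ⟨hu, h⟩, rfl⟩)
  · intro D hD p hp h
    refine ⟨witn D p, H _ hD _ hp _ z _ z (Or.inl (Or.inl (Or.inl
      (Or.inr (Or.inr (Or.inr (Or.inr (Or.inl rfl)))))))), (key _).1 (H _ hD _ hp _ z _ z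
      (Or.inl (Or.inl (Or.inl (Or.inr (Or.inr (Or.inr (Or.inr (Or.inr rfl))))))))), ?_⟩
    unfold witn
    rw [dif_pos h]
    exact h.choose_spec

end Pool.Agent.MP_5a4599_gt

end

section

namespace Pool.Agent.MP_5a4599_gt

open Set Ordinal

/-- The first index that can be forced. -/
def First (γ : K) (Ψ : Pre → ℕ → Prop) (r : Pre) (j : ℕ) : Prop :=
  Ψ r j ∧ ∀ i < j, ¬ ∃ s, V γ s ∧ L γ s r ∧ Ψ s i

theorem First.mono {γ : K} {Ψ : Pre → ℕ → Prop} {r r' : Pre} {j : ℕ}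
    (hΨ : ∀ r r' j, Ψ r j → V γ r' → L γ r' r → Ψ r' j) (h : First γ Ψ r j) (hr : V γ r')
    (hl : L γ r' r) : First γ Ψ r' j :=
  ⟨hΨ _ _ _ h.1 hr hl, fun i hi ⟨s, h₁, h₂, h₃⟩ => h.2 i hi ⟨s, h₁, h₂.trans hl, h₃⟩⟩

theorem First.uniq {γ : K} {Ψ : Pre → ℕ → Prop} {r : Pre} {i j : ℕ} (hr : V γ r)
    (h : First γ Ψ r i) (h' : First γ Ψ r j) : i = j := by
  rcases lt_trichotomy i j with e | e | e
  · exact absurd ⟨r, hr, L.rfl, h.1⟩ (h'.2 i e)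
  · exact e
  · exact absurd ⟨r, hr, L.rfl, h'.1⟩ (h.2 j e)

theorem First.ex {γ : K} {Ψ : Pre → ℕ → Prop} {s : Pre}
    (h : ∃ j r, V γ r ∧ L γ r s ∧ Ψ r j) : ∃ r j, V γ r ∧ L γ r s ∧ First γ Ψ r j := by
  classical
  obtain ⟨r, h₁, h₂, h₃⟩ := Nat.find_spec h
  exact ⟨r, _, h₁, h₂, h₃, fun i hi ⟨t, h₄, h₅, h₆⟩ =>
    Nat.find_min h hi ⟨t, h₄, h₅.trans h₂, h₆⟩⟩

variable (N : Clo)

def Gnr (α : K) (q : Pre) : Prop :=
  ∀ D ∈ N.NT, DT α D → Dns α q fun s => ∃ v : Pre × W, v.1 ∈ N.NP ∧ v.2 < N.δ ∧ D s v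

structure Nm (γ α : K) (q : Pre) (Z : Pre → Pre → Prop) : Prop where
  mem : ∀ r p, Z r p → p ∈ N.NP ∧ V α p ∧ L γ r p
  mono : ∀ r r' p, Z r p → V γ r' → L γ r' r → Z r' p
  fn : ∀ r p p', V γ r → Z r p → Z r p' → p = p'
  dns : Dns γ q fun r => ∃ p, Z r p

variable {N}

theorem Nm.weaken {γ α β : K} {q : Pre} {Z : Pre → Pre → Prop} (h : Nm N γ α q Z) (hβ : β ≤ α) :
    Nm N γ β q Z :=
  ⟨fun r p hz => ⟨(h.mem r p hz).1, (h.mem r p hz).2.1.mono hβ, (h.mem r p hz).2.2⟩, h.mono, h.fn,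
    h.dns⟩

theorem Nm.lift {γ β α : K} {q q₁ : Pre} {Z : Pre → Pre → Prop} (h : Nm N γ α q Z) (hγ : γ ≤ β)
    (ha : ∀ x < γ, Agr x q₁ q) (hc : ∀ s p, V β s → L β s q₁ → Z s p → L β s p) :
    Nm N β α q₁ fun r p => Z r p ∧ L β r p := by
  refine ⟨fun r p hz => ⟨(h.mem r p hz.1).1, (h.mem r p hz.1).2.1, hz.2⟩,
    fun r r' p hz hr hl => ⟨h.mono r r' p hz.1 (hr.mono hγ) (hl.mono hγ), hl.trans hz.2⟩,
    fun r p p' hr hz hz' => h.fn r p p' (hr.mono hγ) hz.1 hz'.1, fun s hs hsq => ?_⟩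
  obtain ⟨r, hr, hrs, p, hz⟩ := h.dns s (hs.mono hγ) ((hsq.mono hγ).trans (L_of_agr ha))
  obtain ⟨t, h₁, -, h₃, h₄⟩ := exists_amalg hr hrs
  have hz' : Z t p := h.mono r t p hz ((h₄ β hs).mono hγ) (L_of_agr h₁)
  exact ⟨t, h₄ β hs, h₃ β, p, hz', hc t p (h₄ β hs) ((h₃ β).trans hsq) hz'⟩

theorem Nm.refine {γ α : K} {q : Pre} {Z : Pre → Pre → Prop} (h : Nm N γ α q Z) (hγ : γ ≤ α)
    (hγN : γ ∈ N.NK) (hαN : α ∈ N.NK) (hq : Gnr N γ q) {D : Task} (hD : D ∈ N.NT)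
    (hD' : DT α D) :
    ∃ Y, Nm N γ α q Y ∧ ∀ r p', Y r p' → (∃ p, Z r p ∧ L α p' p) ∧ ∃ w, D p' w := by
  obtain ⟨e, he⟩ := N.cP.exists_eq_range ⟨_, N.top⟩
  let Ψ : Pre → ℕ → Prop := fun r j =>
    (∃ p, Z r p ∧ L α (e j) p) ∧ V α (e j) ∧ (∃ w, D (e j) w) ∧ L γ r (e j)
  have hΨ : ∀ r r' j, Ψ r j → V γ r' → L γ r' r → Ψ r' j := by
    rintro r r' j ⟨⟨p, h₁, h₂⟩, h₃, h₄, h₅⟩ hr hl
    exact ⟨⟨p, h.mono _ _ _ h₁ hr hl, h₂⟩, h₃, h₄, hl.trans h₅⟩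
  refine ⟨fun r p' => ∃ j, p' = e j ∧ First γ Ψ r j, ⟨?_, ?_, ?_, ?_⟩, ?_⟩
  · rintro r p ⟨j, rfl, hj⟩
    exact ⟨he ▸ ⟨j, rfl⟩, hj.1.2.1, hj.1.2.2.2⟩
  · rintro r r' p ⟨j, rfl, hj⟩ hr hl
    exact ⟨j, rfl, hj.mono hΨ hr hl⟩
  · rintro r p p' hr ⟨i, rfl, hi⟩ ⟨j, rfl, hj⟩
    rw [First.uniq hr hi hj]
  · intro s hs hsq
    obtain ⟨s₁, hs₁, h₁, p, hz⟩ := h.dns s hs hsq
    obtain ⟨hp, hpV, hl⟩ := h.mem _ _ hz
    obtain ⟨s₂, hs₂, h₂, v, hv, -, hT | hT⟩ := hq _ (N.t2 γ hγN α hαN p hp D hD)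
      (dt_T2 hγ hpV hD') s₁ hs₁ (h₁.trans hsq)
    · exact absurd ⟨s₂, hs₂, L.rfl, h₂.trans hl⟩ hT
    · rw [he] at hv
      obtain ⟨j, hj⟩ := hv
      obtain ⟨r, i, hr, hrs, hi⟩ := First.ex (Ψ := Ψ) (s := s) ⟨j, s₂, hs₂, h₂.trans h₁,
        ⟨p, h.mono _ _ _ hz hs₂ h₂, hj ▸ hT.2.1⟩, hj ▸ hT.1, hj ▸ hT.2.2.1, hj ▸ hT.2.2.2⟩
      exact ⟨r, hr, hrs, _, i, rfl, hi⟩
  · rintro r p ⟨j, rfl, hj⟩
    exact ⟨hj.1.1, hj.1.2.2.1⟩

theorem low_of_gnr {γ : K} {q p : Pre} (hq : Gnr N γ q) (hγ : γ ∈ N.NK) (hp : p ∈ N.NP)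
    (hg : Good γ p) {r : Pre} (hr : V γ r) (hrq : L γ r q) (hrp : L γ r p) :
    ∃ r', V γ r' ∧ L γ r' r ∧
      ∀ s, V γ s → L γ s r' → ∀ a, Dec γ p s a → Low N.δ a := by
  obtain ⟨r', hr', hl, v, -, hv, hT | hT⟩ := hq _ (N.t1 γ hγ p hp) (dt_T1 hg) r hr hrq
  · exact absurd ⟨r', hr', L.rfl, hl.trans hrp⟩ hT
  · refine ⟨r', hr', hl, fun s hs hsr a ha => ?_⟩
    by_cases h0 : cl a = 0
    · exact (hT s hs hsr a h0 ha).mono hv.le
    · cases a <;> simp_all [cl, Low]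

theorem con_pt_of_low {δ : W} {a : Atom} (h : Low δ a) : Con (.pt δ) a := by
  cases a with
  | gap a b => exact fun h' => absurd h.2 (not_lt.2 h'.2)
  | _ => trivial

/-- Deciding the finite part of a coordinate. -/
theorem exists_decide {γ : K} {p r : Pre} (hg : Good γ p) (hr : V γ r) (hrp : L γ r p) :
    ∃ r', V γ r' ∧ L γ r' r ∧ {a | cl a = 0 ∧ Dec γ p r' a}.Finite ∧
      ∀ s, V γ s → L γ s r' → ∀ a, cl a = 0 → Dec γ p s a → Dec γ p r' a := by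
  classical
  obtain ⟨r₁, hr₁, h₁, T, hT, H⟩ := (Good_def.1 hg r hr hrp).2 0
  let A : Pre → Set Atom := fun s => {a | cl a = 0 ∧ Dec γ p s a}
  have hA : ∀ s, V γ s → L γ s r₁ → A s ⊆ T := fun s hs hl a ha => H s hs hl a ha.1 ha.2
  have hb : ∃ n, ∃ s, V γ s ∧ L γ s r₁ ∧ T.ncard - (A s).ncard = n := ⟨_, r₁, hr₁, L.rfl, rfl⟩
  obtain ⟨s, hs, hl, e⟩ := Nat.find_spec hb
  refine ⟨s, hs, hl.trans h₁, hT.subset (hA s hs hl), fun t ht hts a ha hd => ?_⟩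
  have sub : A s ⊆ A t := fun b hb => ⟨hb.1, hb.2.mono hts⟩
  have fin : (A t).Finite := hT.subset (hA t ht (hts.trans hl))
  have h₂ : Nat.find hb ≤ T.ncard - (A t).ncard := Nat.find_min' hb ⟨t, ht, hts.trans hl, rfl⟩
  have h₃ : (A t).ncard ≤ T.ncard := ncard_le_ncard (hA t ht (hts.trans hl)) hT
  have h₄ : (A s).ncard ≤ (A t).ncard := ncard_le_ncard sub fin
  have : A s = A t := eq_of_subset_of_ncard_le sub (by omega) fin
  have h₅ : a ∈ A s := this ▸ (⟨ha, hd⟩ : a ∈ A t)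
  exact h₅.2

theorem con_reflect {δ : W} {A B u : Set Atom} (hA : ∀ a ∈ A, ∀ b ∈ A, Con a b)
    (hB : ∀ a ∈ B, ∀ b ∈ B, Con a b) (hδ : Atom.pt δ ∈ A) (hl : ∀ b ∈ B, Low δ b)
    (h₁ : ∀ a ∈ A, cl a = 0 → Low δ a → a ∈ B) (h₂ : ∀ n m, Atom.eq n m ∈ B → Atom.eq n m ∈ u)
    (h₃ : u ⊆ A) : ∀ a ∈ A, ∀ b ∈ B, Con a b := by
  intro a ha b hb
  by_cases h : cl a = 0 ∧ Low δ a
  · exact hB a (h₁ a ha h.1 h.2) b hb
  cases a with
  | pt d =>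
    cases b with
    | gap x y =>
      have h' : ¬ d < δ := fun h' => h ⟨rfl, h'⟩
      exact fun h₄ => h' (h₄.2.trans_lt (hl _ hb).2)
    | _ => trivial
  | gap x y =>
    cases b with
    | pt d =>
      have h₄ : ¬ (x < δ ∧ δ ≤ y) := hA _ hδ _ ha
      exact fun h₅ => h ⟨rfl, h₅.1.trans (hl _ hb),
        not_le.1 fun h₆ => h₄ ⟨h₅.1.trans (hl _ hb), h₆⟩⟩
    | _ => trivial
  | eq n m => exact absurd ⟨rfl, trivial⟩ h
  | ge n m =>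
    cases b with
    | eq n' m' => exact hA _ ha _ (h₃ (h₂ _ _ hb))
    | _ => trivial

theorem succ_step {γ : K} (hγ : γ ∈ N.NK) {q : Pre} {Z : Pre → Pre → Prop} (hV : V γ q)
    (hq : Gnr N γ q) (hZ : Nm N γ (Order.succ γ) q Z) :
    ∃ q', V (Order.succ γ) q' ∧ (∀ β < γ, Agr β q' q) ∧ Gnr N (Order.succ γ) q' ∧
      ∀ s p, V (Order.succ γ) s → L (Order.succ γ) s q' → Z s p → L (Order.succ γ) s p := by
  have lt := Order.lt_succ γ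
  obtain ⟨q', h₁, h₂, h₃⟩ := exists_modify γ q top
    (fun r a => a = .pt N.δ ∨ ∃ p, Z r p ∧ Dec γ p r a) (by
      rintro x x' a (h | ⟨p, h, h'⟩) hx hl
      exacts [Or.inl h, Or.inr ⟨p, hZ.mono _ _ _ h hx hl, h'.mono hl⟩])
  have hpt : ∀ r, V γ r → Dec γ q' r (.pt N.δ) := fun r hr =>
    (h₂ r _ hr).2 (Dns.of_all fun _ _ _ => Or.inl rfl)
  have hA : ∀ r p a, V γ r → Z r p → (Dec γ q' r a ↔ a = .pt N.δ ∨ Dec γ p r a) := by
    intro r p a hr hz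
    constructor
    · intro h
      by_cases e : a = .pt N.δ
      · exact Or.inl e
      · refine Or.inr (Dec.reg (((h₂ r a hr).1 h).imp ?_))
        rintro s hs hsr (h | ⟨p', h, h'⟩)
        · exact absurd h e
        · rwa [hZ.fn s p p' hs (hZ.mono _ _ _ hz hs hsr) h]
    · rintro (rfl | h)
      · exact hpt r hr
      · exact (h₂ r a hr).2 (Dns.of_all fun s hs hsr =>
          Or.inr ⟨p, hZ.mono _ _ _ hz hs hsr, h.mono hsr⟩)
  have hqq : L γ q' q := L_of_agr h₁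
  have hgood : Good γ q' := by
    rw [Good_def]
    intro r hr hrq
    obtain ⟨r₁, hr₁, hl₁, p, hz⟩ := hZ.dns r hr (hrq.trans hqq)
    obtain ⟨hp, hpV, hlp⟩ := hZ.mem _ _ hz
    constructor
    · intro a b ha hb
      obtain ⟨r₂, hr₂, hl₂, H⟩ := low_of_gnr hq hγ hp (hpV.good lt) hr₁
        (hl₁.trans (hrq.trans hqq)) hlp
      have hz₂ := hZ.mono _ _ _ hz hr₂ hl₂
      have ha' := (hA r₂ p a hr₂ hz₂).1 (ha.mono (hl₂.trans hl₁))
      have hb' := (hA r₂ p b hr₂ hz₂).1 (hb.mono (hl₂.trans hl₁))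
      rcases ha' with rfl | ha' <;> rcases hb' with rfl | hb'
      · trivial
      · exact con_pt_of_low (H r₂ hr₂ L.rfl b hb')
      · exact (con_pt_of_low (H r₂ hr₂ L.rfl a ha')).symm
      · exact (Good_def.1 (hpV.good lt) r₂ hr₂ (hl₂.trans hlp)).1 a b ha' hb'
    · intro k
      obtain ⟨r₂, hr₂, hl₂, T, hT, H⟩ := (Good_def.1 (hpV.good lt) r₁ hr₁ hlp).2 k
      refine ⟨r₂, hr₂, hl₂.trans hl₁, insert (.pt N.δ) T, hT.insert _, fun s hs hl a hk ha => ?_⟩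
      rcases (hA s p a hs (hZ.mono _ _ _ hz hs (hl.trans hl₂))).1 ha with h | h
      exacts [Or.inl h, Or.inr (H s hs hl a hk h)]
  have hnt : ∀ x a, V γ x → L γ x q → Dec γ top x a → Dec γ q' x a := fun x a hx _ h =>
    absurd h (not_dec_of_notMem_supp (by simp [supp_top]) hx)
  refine ⟨q', modify_valid hV (V_top _) (L_top _ _) h₁ hnt h₃ fun _ => hgood, h₁, ?_, ?_⟩
  · intro D hD hD' s hs hsq
    obtain ⟨s₁, hs₁, hl₁, v₀, hv₀⟩ := hD'.2 s hs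
    have hs₁q : L (Order.succ γ) s₁ q' := hl₁.trans hsq
    obtain ⟨r₂, hr₂, hl₂, hfin, hdec⟩ := exists_decide (hs₁.good lt) (hs₁.mono lt.le) L.rfl
    let u : Set Atom := {a | (cl a = 0 ∧ Dec γ s₁ r₂ a) ∧ Low N.δ a}
    have hr₂q : L γ r₂ q := hl₂.trans ((hs₁q.mono lt.le).trans hqq)
    obtain ⟨r₃, hr₃, hl₃, v, hv, -, hT | hT⟩ := hq _
      (N.t3 γ hγ D hD u (hfin.subset fun a ha => ha.1) fun a ha => ha.2) (dt_T3 γ D u) r₂ hr₂ hr₂q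
    swap
    · exact absurd ⟨r₃, s₁, hr₃, L.rfl, hs₁, ⟨v₀, hv₀⟩, hl₃.trans hl₂,
        fun a ha => ha.1.2.mono hl₃, fun x hx hxr n m h =>
          ⟨⟨rfl, hdec x hx (hxr.trans hl₃) _ rfl h⟩, trivial⟩⟩ hT
    obtain ⟨hp'V, hw, hl', hu, he⟩ := hT
    obtain ⟨r₄, hr₄, hl₄, hlow⟩ := low_of_gnr hq hγ hv (hp'V.good lt) hr₃ (hl₃.trans hr₂q) hl'
    obtain ⟨t, ht₁, ht₂, ht₃⟩ := exists_modify γ r₄ s₁
      (fun x a => Dec γ s₁ x a ∨ Dec γ v.1 x a) (by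
        rintro x x' a (h | h) _ hl
        exacts [Or.inl (h.mono hl), Or.inr (h.mono hl)])
    have hr₄s : L γ r₄ s₁ := hl₄.trans (hl₃.trans hl₂)
    have htr : L γ t r₄ := L_of_agr ht₁
    have hsub : ∀ x a, V γ x → L γ x r₄ → Dec γ s₁ x a → Dec γ t x a := fun x a hx _ h =>
      (ht₂ x a hx).2 (Dns.of_all fun y _ hy => Or.inl (h.mono hy))
    have htg : Good γ t := by
      rw [Good_def]
      intro x hx hxt
      have hx4 : L γ x r₄ := hxt.trans htr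
      constructor
      · intro a b ha hb
        obtain ⟨y, hy, hyx, ha'⟩ := (ht₂ x a hx).1 ha x hx L.rfl
        obtain ⟨z, hz, hzy, hb'⟩ := (ht₂ x b hx).1 hb y hy hyx
        have hz4 : L γ z r₄ := hzy.trans (hyx.trans hx4)
        have cA := (Good_def.1 (hs₁.good lt) z hz (hz4.trans hr₄s)).1
        have cB := (Good_def.1 (hp'V.good lt) z hz (hz4.trans (hl₄.trans hl'))).1
        have key := con_reflect (δ := N.δ) (A := {a | Dec γ s₁ z a}) (B := {a | Dec γ v.1 z a})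
          (u := u) (fun a ha b hb => cA a b ha hb) (fun a ha b hb => cB a b ha hb)
          (hs₁q.dec lt hz (hz4.trans hr₄s) (hpt z hz)) (fun b hb => hlow z hz hz4 b hb)
          (fun a ha h0 hl => (hu a ⟨⟨h0, hdec z hz (hz4.trans (hl₄.trans hl₃)) a h0 ha⟩, hl⟩).mono
            (hz4.trans hl₄))
          (fun n m h => he z hz (hz4.trans hl₄) n m h)
          (fun a ha => ha.1.2.mono (hz4.trans (hl₄.trans hl₃)))
        rcases ha' with ha' | ha' <;> rcases hb' with hb' | hb'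
        · exact cA a b (ha'.mono hzy) hb'
        · exact key a (ha'.mono hzy) b hb'
        · exact (key b hb' a (ha'.mono hzy)).symm
        · exact cB a b (ha'.mono hzy) hb'
      · intro k
        obtain ⟨y, hy, hyx, T, hT, H⟩ :=
          (Good_def.1 (hs₁.good lt) x hx (hx4.trans hr₄s)).2 k
        obtain ⟨z, hz, hzy, T', hT', H'⟩ :=
          (Good_def.1 (hp'V.good lt) y hy (hyx.trans (hx4.trans (hl₄.trans hl')))).2 k
        refine ⟨z, hz, hzy.trans hyx, T ∪ T', hT.union hT', fun x' hx' hl a hk ha => ?_⟩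
        obtain ⟨y', hy', hl', h | h⟩ := (ht₂ x' a hx').1 ha x' hx' L.rfl
        · exact Or.inl (H y' hy' (hl'.trans (hl.trans hzy)) a hk h)
        · exact Or.inr (H' y' hy' (hl'.trans hl) a hk h)
    have htV : V (Order.succ γ) t := modify_valid hr₄ hs₁ hr₄s ht₁ hsub ht₃ fun _ => htg
    have htp : L (Order.succ γ) t v.1 := by
      rw [L_iff]
      intro β hβ x hx hxt a ha
      rcases (Order.lt_succ_iff.1 hβ).eq_or_lt with rfl | h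
      · exact (ht₂ x a hx).2 (Dns.of_all fun y _ hy => Or.inr (ha.mono hy))
      · exact (htr.trans (hl₄.trans hl')).dec h hx hxt ha
    obtain ⟨w, hw₁, hw₂, hw₃⟩ := N.wit D hD v.1 hv hw
    exact ⟨t, htV, (modify_le hr₄s ht₁ hsub ht₃).trans hl₁, w, hw₁, hw₂, hD'.1 _ _ _ hw₃ htV htp⟩
  · intro s p _ hsq hz
    rw [L_iff]
    intro β hβ x hx hxs a ha
    rcases (Order.lt_succ_iff.1 hβ).eq_or_lt with rfl | h
    · exact hsq.dec lt hx hxs ((hA x p a hx (hZ.mono _ _ _ hz hx hxs)).2 (Or.inr ha))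
    · exact (hZ.mem _ _ hz).2.2.dec h hx hxs ha

theorem dc {X : Type*} (Inv : ℕ → X → Prop) (Rel : ℕ → X → X → Prop) (x₀ : X) (h₀ : Inv 0 x₀)
    (step : ∀ n x, Inv n x → ∃ y, Inv (n + 1) y ∧ Rel n x y) :
    ∃ f : ℕ → X, f 0 = x₀ ∧ ∀ n, Inv n (f n) ∧ Rel n (f n) (f (n + 1)) := by
  choose g hg using step
  let F : ∀ n, {x // Inv n x} := fun n =>
    Nat.rec ⟨x₀, h₀⟩ (fun n x => ⟨g n x.1 x.2, (hg n x.1 x.2).1⟩) n
  exact ⟨fun n => (F n).1, rfl, fun n => ⟨(F n).2, (hg n (F n).1 (F n).2).2⟩⟩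

/-- The statement of the proper iteration lemma. -/
def PIL (N : Clo) (α : K) : Prop :=
  ∀ γ ∈ N.NK, γ ≤ α → ∀ q Z, V γ q → Gnr N γ q → Nm N γ α q Z →
    ∃ q', V α q' ∧ (∀ β < γ, Agr β q' q) ∧ Gnr N α q' ∧
      ∀ s p, V α s → L α s q' → Z s p → L α s p

theorem limit_step {α : K} (hα : α ∈ N.NK) (hlim : ∀ β < α, Order.succ β < α)
    (ih : ∀ β < α, β ∈ N.NK → PIL N β) {γ : K} (hγ : γ ∈ N.NK) (hγα : γ < α) {q : Pre}
    {Z : Pre → Pre → Prop} (hV : V γ q) (hq : Gnr N γ q) (hZ : Nm N γ α q Z) :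
    ∃ q', V α q' ∧ (∀ β < γ, Agr β q' q) ∧ Gnr N α q' ∧
      ∀ s p, V α s → L α s q' → Z s p → L α s p := by
  classical
  obtain ⟨e, he⟩ := (N.cK.mono (inter_subset_left (t := Iio α))).exists_eq_range ⟨γ, hγ, hγα⟩
  have he' : ∀ n, e n ∈ N.NK ∧ e n < α := fun n =>
    (he ▸ mem_range_self n : e n ∈ N.NK ∩ Iio α)
  obtain ⟨D, hD⟩ := (N.cT.mono (inter_subset_left (t := {D | DT α D}))).exists_eq_range
    ⟨T1 α top, N.t1 α hα _ N.top, dt_T1 (good_of_notMem_supp (by simp [supp_top]))⟩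
  have hD' : ∀ n, D n ∈ N.NT ∧ DT α (D n) := fun n =>
    (hD ▸ mem_range_self n : D n ∈ N.NT ∩ {D | DT α D})
  let c : ℕ → K := fun n => Nat.rec γ (fun n x => max x (Order.succ (e n))) n
  have hc : ∀ n, c (n + 1) = max (c n) (Order.succ (e n)) := fun n => rfl
  have hcm : Monotone c := monotone_nat_of_le_succ fun n => by rw [hc]; exact le_max_left _ _
  have hcN : ∀ n, c n ∈ N.NK ∧ c n < α := by
    intro n
    induction n with
    | zero => exact ⟨hγ, hγα⟩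
    | succ n ih =>
      rw [hc]
      rcases max_choice (c n) (Order.succ (e n)) with h | h <;> rw [h]
      exacts [ih, ⟨N.succ _ (he' n).1, hlim _ (he' n).2⟩]
  have hcof : ∀ β ∈ N.NK, β < α → ∃ n, β < c n := by
    intro β h₁ h₂
    obtain ⟨n, rfl⟩ : β ∈ range e := he ▸ ⟨h₁, h₂⟩
    exact ⟨n + 1, by rw [hc]; exact lt_max_of_lt_right (Order.lt_succ _)⟩
  obtain ⟨f, f0, hf⟩ := dc (X := Pre × (Pre → Pre → Prop))
    (fun n x => V (c n) x.1 ∧ Gnr N (c n) x.1 ∧ Nm N (c n) α x.1 x.2)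
    (fun n x y => (∀ β < c n, Agr β y.1 x.1) ∧
      (∀ s p, V (c (n + 1)) s → L (c (n + 1)) s y.1 → x.2 s p → L (c (n + 1)) s p) ∧
      ∀ r p', y.2 r p' → (∃ p, x.2 r p ∧ L α p' p) ∧ ∃ w, D n p' w) (q, Z) ⟨hV, hq, hZ⟩ (by
      rintro n ⟨x, Y⟩ ⟨h₁, h₂, h₃⟩
      obtain ⟨y, h₄, h₅, h₆, h₇⟩ := ih (c (n + 1)) (hcN (n + 1)).2 (hcN (n + 1)).1 (c n) (hcN n).1
        (hcm n.le_succ) x Y h₁ h₂ (h₃.weaken (hcN (n + 1)).2.le)
      obtain ⟨Y', h₈, h₉⟩ := (h₃.lift (hcm n.le_succ) h₅ h₇).refine (hcN (n + 1)).2.le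
        (hcN (n + 1)).1 hα h₆
        (hD' n).1 (hD' n).2
      refine ⟨(y, Y'), ⟨h₄, h₆, h₈⟩, h₅, h₇, fun r p' h => ⟨?_, (h₉ r p' h).2⟩⟩
      obtain ⟨p, h, h'⟩ := (h₉ r p' h).1
      exact ⟨p, h.1, h'⟩)
  have coh : ∀ n m, n ≤ m → ∀ β < c n, Agr β (f m).1 (f n).1 := by
    intro n m h β hβ
    induction m, h using Nat.le_induction with
    | base => exact Agr.rfl
    | succ m h ih => exact ((hf m).2.1 β (hβ.trans_le (hcm h))).trans ih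
  obtain ⟨q', -, hq'⟩ := exists_cond α (fun β r a => ∃ n, β < c n ∧ Dec β (f n).1 r a)
    (fun β r r' a ⟨n, h₁, h₂⟩ _ hl => ⟨n, h₁, h₂.mono hl⟩)
  have agr : ∀ n, ∀ β < c n, Agr β q' (f n).1 := by
    intro n β hβ r a hr
    rw [hq' β r a hr, ← dns_dec_iff]
    constructor
    · rintro ⟨-, h⟩
      refine h.imp fun s hs _ ⟨m, h₁, h₂⟩ => ?_
      rcases le_total n m with h | h
      · exact (coh n m h β hβ s a hs).1 h₂
      · exact (coh m n h β h₁ s a hs).2 h₂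
    · exact fun h => ⟨hβ.trans (hcN n).2, h.imp fun s _ _ h => ⟨n, hβ, h⟩⟩
  have hsupp : ∀ β ∈ supp q', ∃ n, β < c n := by
    rintro β ⟨r, a, hr, h⟩
    obtain ⟨s, -, -, n, hn, -⟩ := ((hq' β r a hr).1 h).2 r hr L.rfl
    exact ⟨n, hn⟩
  have hV' : V α q' := by
    rw [V_iff]
    constructor
    · refine (countable_iUnion fun n => (V_iff.1 (hf n).1.1).1).mono ?_
      rintro β ⟨hβ, -⟩
      obtain ⟨n, hn⟩ := hsupp β hβ
      exact mem_iUnion.2 ⟨n, mem_supp_of_agr (agr n β hn) hβ, hn⟩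
    · intro β _
      by_cases hβ : β ∈ supp q'
      · obtain ⟨n, hn⟩ := hsupp β hβ
        exact ((hf n).1.1.good hn).of_agr (L_of_agr fun x hx => agr n x (hx.trans hn)) (agr n β hn)
      · exact good_of_notMem_supp hβ
  have chain : ∀ n k, n ≤ k → ∀ t p p', V α t → (f n).2 t p → (f k).2 t p' → L α p' p := by
    intro n k h t p
    induction k, h using Nat.le_induction with
    | base =>
      intro p' ht h₁ h₂
      rw [(hf n).1.2.2.fn t p p' (ht.mono (hcN n).2.le) h₁ h₂]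
      exact L.rfl
    | succ k _ ih =>
      intro p' ht h₁ h₂
      obtain ⟨p'', h₃, h₄⟩ := ((hf k).2.2.2 t p' h₂).1
      exact h₄.trans (ih p'' ht h₁ h₃)
  have claim : ∀ n s p, V α s → L α s q' → (f n).2 s p → L α s p := by
    intro n s p hs hsq hz
    obtain ⟨hp, hpV, hl⟩ := (hf n).1.2.2.mem _ _ hz
    rw [L_iff]
    intro β hβ r hr hrs a ha
    rcases em (β < c n) with hn | hn
    · exact hl.dec hn hr hrs ha
    have hex := hcof β (N.supp α hα p hp hpV ⟨⟨r, a, hr, ha⟩, hβ⟩) hβ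
    obtain ⟨k, hk₂, hk₁⟩ := Nat.exists_not_and_succ_of_not_zero_of_exists
      (p := fun n => β < c n) (fun h => hn (h.trans_le (hcm n.zero_le))) hex
    replace hk₂ : c k ≤ β := not_lt.1 hk₂
    have hnk : n ≤ k := by
      by_contra h
      exact hn (lt_of_lt_of_le hk₁ (hcm (show k + 1 ≤ n by omega)))
    refine Dec.reg fun r' hr' hl' => ?_
    obtain ⟨r'', hr'', hl'', p', hz'⟩ := (hf k).1.2.2.dns r' (hr'.mono hk₂)
      (((hl'.trans (hrs.trans (hsq.mono hβ.le))).mono hk₂).trans (L_of_agr (agr k)))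
    obtain ⟨t₁, a₁, -, b₁, c₁⟩ := exists_amalg hr'' hl''
    obtain ⟨t, a₂, a₃, b₂, c₂⟩ := exists_amalg (c₁ β hr') ((b₁ β).trans (hl'.trans hrs))
    have ht : V α t := c₂ α hs
    have htr : L β t r' := (L_of_agr a₂).trans (b₁ β)
    have y₁ : (f k).2 t p' := (hf k).1.2.2.mono _ _ _ hz' (ht.mono (hcN k).2.le)
      (((L_of_agr a₂).mono hk₂).trans (L_of_agr a₁))
    have y₂ : (f n).2 t p := (hf n).1.2.2.mono _ _ _ hz (ht.mono (hcN n).2.le) (b₂ _)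
    have y₃ : L (c (k + 1)) t p' := (hf k).2.2.1 t p' (ht.mono (hcN (k + 1)).2.le)
      ((b₂ _).trans ((hsq.mono (hcN (k + 1)).2.le).trans (L_of_agr (agr (k + 1))))) y₁
    have y₄ : L (c (k + 1)) t p := y₃.trans ((chain n k hnk t p p' ht y₂ y₁).mono (hcN (k + 1)).2.le)
    exact ⟨t, ht.mono hβ.le, htr, (a₃ β le_rfl t a (ht.mono hβ.le)).1
      (y₄.dec hk₁ (ht.mono hβ.le) L.rfl (ha.mono (htr.trans hl')))⟩
  refine ⟨q', hV', fun β hβ => by simpa [f0] using agr 0 β hβ, fun E hE hE' s hs hsq => ?_,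
    fun s p hs hsq hz => claim 0 s p hs hsq (by rw [f0]; exact hz)⟩
  obtain ⟨n, rfl⟩ : E ∈ range D := hD ▸ ⟨hE, hE'⟩
  obtain ⟨r, hr, hrs, p', hz⟩ := (hf (n + 1)).1.2.2.dns s (hs.mono (hcN (n + 1)).2.le)
    ((hsq.mono (hcN (n + 1)).2.le).trans (L_of_agr (agr (n + 1))))
  obtain ⟨t, a₁, -, b₁, c₁⟩ := exists_amalg hr hrs
  have ht := c₁ α hs
  have y₁ : (f (n + 1)).2 t p' :=
    (hf (n + 1)).1.2.2.mono _ _ _ hz (ht.mono (hcN (n + 1)).2.le) (L_of_agr a₁)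
  obtain ⟨w, h₁, h₂, h₃⟩ := N.wit _ hE p' ((hf (n + 1)).1.2.2.mem _ _ y₁).1 ((hf n).2.2.2 _ _ y₁).2
  exact ⟨t, ht, b₁ α, w, h₁, h₂,
    hE'.1 _ _ _ h₃ ht (claim (n + 1) t p' ht ((b₁ α).trans hsq) y₁)⟩

theorem pil (α : K) : α ∈ N.NK → PIL N α := by
  induction α using WellFoundedLT.induction with
  | ind α ih =>
    intro hα γ hγ hγα q Z hV hq hZ
    rcases hγα.eq_or_lt with rfl | hlt
    · exact ⟨q, hV, fun _ _ => Agr.rfl, hq, fun s p _ _ hz => (hZ.mem _ _ hz).2.2⟩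
    by_cases h : ∃ β, α = Order.succ β
    · obtain ⟨β, rfl⟩ := h
      have lt := Order.lt_succ β
      have hβ := N.pred β hα
      have hγβ := Order.lt_succ_iff.1 hlt
      obtain ⟨q₁, h₁, h₂, h₃, h₄⟩ := ih β lt hβ γ hγ hγβ q Z hV hq (hZ.weaken lt.le)
      obtain ⟨q', h₅, h₆, h₇, h₈⟩ := succ_step hβ h₁ h₃ (hZ.lift hγβ h₂ h₄)
      refine ⟨q', h₅, fun x hx => (h₆ x (hx.trans_le hγβ)).trans (h₂ x hx), h₇,
        fun s p hs hl hz => h₈ s p hs hl ⟨hz, h₄ s p (hs.mono lt.le)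
          ((hl.mono lt.le).trans (L_of_agr h₆)) hz⟩⟩
    · exact limit_step hα (fun β hβ => (Order.succ_le_iff.2 hβ).lt_of_ne fun e => h ⟨β, e.symm⟩)
        ih hγ hlt hV hq hZ

/-- Properness, in the form needed for the preservation of omega one. -/
theorem proper {α : K} {p : Pre} (hp : V α p) (D : ℕ → Task) (hD : ∀ n, DT α (D n)) :
    ∃ q, ∃ δ : W, V α q ∧ L α q p ∧ ∀ n, Dns α q fun s => ∃ v : Pre × W, v.2 < δ ∧ D n s v := by
  obtain ⟨N, h₁, h₂, h₃⟩ := exists_clo α p D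
  have L0 : ∀ a b, L 0 a b := fun a b => L_iff.2 fun _ h => absurd h (not_lt_of_ge zero_le)
  obtain ⟨q, h₄, -, h₅, h₆⟩ := pil α h₁ 0 N.zero zero_le top (fun _ p' => p' = p) (V_top 0)
    (fun E hE hE' s hs _ => by
      obtain ⟨r, -, -, v, hv⟩ := hE'.2 top (V_top 0)
      obtain ⟨w, a, b, c⟩ := N.wit E hE top N.top ⟨v, hE'.1 _ _ _ hv (V_top 0) (L0 _ _)⟩
      exact ⟨s, hs, L.rfl, w, a, b, hE'.1 _ _ _ c hs (L0 _ _)⟩)
    ⟨fun r p' h => h ▸ ⟨h₂, hp, L0 _ _⟩, fun _ _ _ h _ _ => h, fun _ _ _ _ h h' => h.trans h'.symm,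
      fun s hs _ => ⟨s, hs, L.rfl, p, rfl⟩⟩
  exact ⟨q, N.δ, h₄, h₆ q p h₄ L.rfl rfl, fun n =>
    (h₅ _ (h₃ n) (hD n)).imp fun s _ _ ⟨v, _, a, b⟩ => ⟨v, a, b⟩⟩

end Pool.Agent.MP_5a4599_gt

end

section

namespace Pool.Agent.MP_5a4599_gt

open Set Ordinal

/-- The final forcing notion. -/
def PP : Type 1 := {p : Pre // ∀ α, V α p}

instance : Preorder PP where
  le q p := ∀ α, L α q.1 p.1
  le_refl _ _ := L.rfl
  le_trans _ _ _ h h' α := (h α).trans (h' α)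

noncomputable instance : OrderTop PP where
  top := ⟨top, V_top⟩
  le_top p α := L_top α p.1

theorem PP.le_of {α : K} {q p : PP} (h : L α q.1 p.1) (hp : supp p.1 ⊆ Iio α) : q ≤ p :=
  fun _ => L_of_supp h fun _ hx => hp hx.1

theorem PP.amalg {α : K} {r : Pre} (s : PP) (hr : V α r) (hrs : L α r s.1) :
    ∃ t : PP, t ≤ s ∧ L α t.1 r ∧ Agr α t.1 s.1 := by
  obtain ⟨t, h₁, h₂, h₃, h₄⟩ := exists_amalg hr hrs
  exact ⟨⟨t, fun β => h₄ β (s.2 β)⟩, h₃, L_of_agr h₁, h₂ α le_rfl⟩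

theorem exists_long_closure (F : K → K) (α₀ : K) : ∃ α : K, α₀ ≤ α ∧
    ∀ c : Set K, c.Countable → c ⊆ Iio α → ∃ β, α₀ ≤ β ∧ β ≤ α ∧ F β ≤ α ∧ c ⊆ Iio β := by
  let G : K → K := fun β => max (F (max β α₀)) (max β α₀)
  let a : K → K := (wellFounded_lt (α := K)).fix fun ξ ih => ⨆ η : Iio ξ, G (ih η.1 η.2)
  have ha : ∀ ξ, a ξ = ⨆ η : Iio ξ, G (a η.1) := fun ξ => by
    conv_lhs => simp only [a]; rw [WellFounded.fix_eq]
  have hle : ∀ η ξ, η < ξ → G (a η) ≤ a ξ := fun η ξ h => by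
    rw [ha ξ]
    exact le_ciSup (f := fun η : Iio ξ => G (a η.1)) Ordinal.bddAbove_of_small ⟨η, h⟩
  have hG : ∀ β, max β α₀ ≤ G β := fun β => le_max_right _ _
  refine ⟨a ω₁, ((le_max_right _ _).trans (hG _)).trans (hle 0 _ (omega_pos 1)), fun c hc hcα => ?_⟩
  have : ∀ β ∈ c, ∃ η : W, β < G (a η.1) := by
    intro β hβ
    have h : β < a ω₁ := hcα hβ
    rw [ha] at h
    have : Nonempty (Iio (ω₁ : K)) := ⟨w0⟩
    exact (lt_ciSup_iff Ordinal.bddAbove_of_small).1 h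
  have _ : Nonempty W := ⟨w0⟩
  choose! f hf using this
  obtain ⟨b, hb⟩ := W.exists_gt (hc.image f)
  refine ⟨max (a b.1) α₀, le_max_right _ _, (hG _).trans (hle _ _ b.2),
    (le_max_left _ _).trans (hle _ _ b.2), fun β hβ => ?_⟩
  exact lt_max_of_lt_left ((hf β hβ).trans_le (hle _ _ (hb _ ⟨β, hβ, rfl⟩)))

theorem capture {ι : Type 1} [Small.{0} ι] (p₀ : PP) (D : ι → PP → Prop)
    (hD : ∀ i q, q ≤ p₀ → ∃ r ≤ q, D i r) :
    ∃ α, supp p₀.1 ⊆ Iio α ∧ ∀ i q, V α q → L α q p₀.1 →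
      ∃ r : PP, D i r ∧ supp r.1 ⊆ Iio α ∧ L α r.1 q := by
  have key : ∀ β, ∃ b, ∀ i, ∀ s : PP, s.1 ∈ S β → s ≤ p₀ →
      ∃ r ≤ s, D i r ∧ supp r.1 ⊆ Iio b := by
    intro β
    have := small_S β
    have h : ∀ x : ι × S β, ∃ b, ∀ s : PP, s.1 = x.2.1 → s ≤ p₀ →
        ∃ r ≤ s, D x.1 r ∧ supp r.1 ⊆ Iio b := by
      rintro ⟨i, s, hs⟩
      by_cases h : ∃ s' : PP, s'.1 = s ∧ s' ≤ p₀
      · obtain ⟨s', rfl, h⟩ := h
        obtain ⟨r, hr, hd⟩ := hD i s' h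
        obtain ⟨b, hb⟩ := exists_bound r.1
        exact ⟨b, fun t ht _ => ⟨r, (Subtype.ext ht : t = s') ▸ hr, hd, hb⟩⟩
      · exact ⟨0, fun t ht h' => absurd ⟨t, ht, h'⟩ h⟩
    choose f hf using h
    obtain ⟨b, hb⟩ : BddAbove (range f) := Ordinal.bddAbove_of_small
    refine ⟨b, fun i s hs hsp => ?_⟩
    obtain ⟨r, h₁, h₂, h₃⟩ := hf (i, ⟨s.1, hs⟩) s rfl hsp
    exact ⟨r, h₁, h₂, h₃.trans (Iio_subset_Iio (hb ⟨_, rfl⟩))⟩
  choose F hF using key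
  obtain ⟨α₀, h₀⟩ := exists_bound p₀.1
  obtain ⟨α, hα, H⟩ := exists_long_closure F α₀
  refine ⟨α, h₀.trans (Iio_subset_Iio hα), fun i q hq hqp => ?_⟩
  obtain ⟨β, h₁, h₂, h₃, h₄⟩ := H _ (V_iff.1 hq).1 inter_subset_right
  obtain ⟨s, hs, hsq, hss⟩ := exists_nf β q
  let s' : PP := ⟨s, fun _ => V_of_supp ((hq.mono h₂).of_agr hsq) hss⟩
  obtain ⟨r, h₅, h₆, h₇⟩ := hF β i s' hs
    (PP.le_of ((L_of_agr hsq).trans (hqp.mono h₂)) (h₀.trans (Iio_subset_Iio h₁)))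
  exact ⟨r, h₆, h₇.trans (Iio_subset_Iio h₃), (h₅ α).trans (L_of_supp (L_of_agr hsq) h₄)⟩

theorem PP.proper (p₀ : PP) (E : ℕ → PP → W → Prop)
    (hm : ∀ n r r' ξ, E n r ξ → r' ≤ r → E n r' ξ)
    (hE : ∀ n q, q ≤ p₀ → ∃ r ≤ q, ∃ ξ, E n r ξ) :
    ∃ q ≤ p₀, ∃ δ : W, ∀ n, ∀ s ≤ q, ∃ s' ≤ s, ∃ ξ < δ, E n s' ξ := by
  obtain ⟨α, hα, H⟩ := capture (ι := ULift ℕ) p₀ (fun n r => ∃ ξ, E n.down r ξ)
    fun n q hq => hE n.down q hq
  obtain ⟨q, δ, hq, hqp, h⟩ := Pool.Agent.MP_5a4599_gt.proper (p₀.2 α)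
    (fun n r v => Inc α r p₀.1 ∨ ∃ r' : PP, E n r' v.2 ∧ supp r'.1 ⊆ Iio α ∧ L α r r'.1) (by
      intro n
      constructor
      · rintro r r' v (h | ⟨t, h₁, h₂, h₃⟩) _ hl
        exacts [Or.inl (h.mono hl), Or.inr ⟨t, h₁, h₂, hl.trans h₃⟩]
      · intro r hr
        by_cases h : Inc α r p₀.1
        · exact ⟨r, hr, L.rfl, (r, w0), Or.inl h⟩
        · obtain ⟨s, hs, h₁, h₂⟩ := not_not.1 h
          obtain ⟨t, ⟨ξ, h₃⟩, h₄, h₅⟩ := H ⟨n⟩ s hs h₂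
          exact ⟨t.1, t.2 α, h₅.trans h₁, (r, ξ), Or.inr ⟨t, h₃, h₄, L.rfl⟩⟩)
  obtain ⟨q', -, h₁, h₂⟩ := exists_nf α q
  refine ⟨⟨q', fun _ => V_of_supp (hq.of_agr h₁) h₂⟩, PP.le_of ((L_of_agr h₁).trans hqp) hα, δ,
    fun n s hs => ?_⟩
  have hsq : L α s.1 q := (hs α).trans (L_of_agr h₁)
  obtain ⟨s₁, h₃, h₄, v, hv, h₅ | ⟨r', h₅, h₆, h₇⟩⟩ := h n s.1 (s.2 α) hsq
  · exact absurd ⟨s₁, h₃, L.rfl, h₄.trans (hsq.trans hqp)⟩ h₅
  · obtain ⟨t, h₈, h₉, -⟩ := s.amalg h₃ h₄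
    exact ⟨t, h₈, v.2, hv, hm _ _ _ _ h₅ (PP.le_of (h₉.trans h₇) h₆)⟩

/-- `u` forces the atom `a` into the generic object at position `α`. -/
def DD (α : K) (u : PP) (a : Atom) : Prop := Dec α u.1 u.1 a

theorem dd_of_dec {α : K} {u t : PP} {a : Atom} (h : Dec α t.1 u.1 a) (hu : u ≤ t) : DD α u a :=
  (hu (Order.succ α)).dec (Order.lt_succ α) (u.2 α) L.rfl h

theorem DD.mono {α : K} {u u' : PP} {a : Atom} (h : DD α u a) (hu : u' ≤ u) : DD α u' a :=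
  dd_of_dec (Dec.mono h (hu α)) hu

theorem PP.good (u : PP) (α : K) : Good α u.1 := (u.2 (Order.succ α)).good (Order.lt_succ α)

theorem DD.con {α : K} {u : PP} {a b : Atom} (h : DD α u a) (h' : DD α u b) : Con a b :=
  (Good_def.1 (u.good α) u.1 (u.2 α) L.rfl).1 a b h h'

theorem add_atoms {α : K} (q : PP) {r : Pre} (hr : V α r) (hrq : L α r q.1)
    (Ψ : Pre → Atom → Prop) (hΨ : ∀ x x' a, Ψ x a → V α x' → L α x' x → Ψ x' a)
    (c₁ : ∀ z a b, V α z → L α z r → Ψ z a → Dec α q.1 z b → Con a b)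
    (c₂ : ∀ z a b, V α z → L α z r → Ψ z a → Ψ z b → Con a b)
    (c₃ : ∀ k z, V α z → L α z r → ∃ z', V α z' ∧ L α z' z ∧ ∃ T : Set Atom, T.Finite ∧
      ∀ y, V α y → L α y z' → ∀ a, cl a = k → Ψ y a → a ∈ T) :
    ∃ t ≤ q, L α t.1 r ∧ ∀ x a, V α x → Ψ x a → Dec α t.1 x a := by
  obtain ⟨t, h₁, h₂, h₃⟩ := exists_modify α r q.1 (fun x a => Dec α q.1 x a ∨ Ψ x a) (by
    rintro x x' a (h | h) hx hl
    exacts [Or.inl (h.mono hl), Or.inr (hΨ _ _ _ h hx hl)])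
  have htr : L α t r := L_of_agr h₁
  have hsub : ∀ x a, V α x → L α x r → Dec α q.1 x a → Dec α t x a := fun x a hx _ h =>
    (h₂ x a hx).2 (Dns.of_all fun y _ hy => Or.inl (h.mono hy))
  have hg : Good α t := by
    rw [Good_def]
    intro x hx hxt
    have hxr : L α x r := hxt.trans htr
    constructor
    · intro a b ha hb
      obtain ⟨y, hy, hyx, ha'⟩ := (h₂ x a hx).1 ha x hx L.rfl
      obtain ⟨z, hz, hzy, hb'⟩ := (h₂ x b hx).1 hb y hy hyx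
      have hzr : L α z r := hzy.trans (hyx.trans hxr)
      rcases ha' with ha' | ha' <;> rcases hb' with hb' | hb'
      · exact (Good_def.1 (q.good α) z hz (hzr.trans hrq)).1 a b (ha'.mono hzy) hb'
      · exact (c₁ z b a hz hzr hb' (ha'.mono hzy)).symm
      · exact c₁ z a b hz hzr (hΨ _ _ _ ha' hz hzy) hb'
      · exact c₂ z a b hz hzr (hΨ _ _ _ ha' hz hzy) hb'
    · intro k
      obtain ⟨y, hy, hyx, T, hT, H⟩ := (Good_def.1 (q.good α) x hx (hxr.trans hrq)).2 k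
      obtain ⟨z, hz, hzy, T', hT', H'⟩ := c₃ k y hy (hyx.trans hxr)
      refine ⟨z, hz, hzy.trans hyx, T ∪ T', hT.union hT', fun x' hx' hl a hk ha => ?_⟩
      obtain ⟨y', hy', hl', h | h⟩ := (h₂ x' a hx').1 ha x' hx' L.rfl
      · exact Or.inl (H y' hy' (hl'.trans (hl.trans hzy)) a hk h)
      · exact Or.inr (H' y' hy' (hl'.trans hl) a hk h)
  exact ⟨⟨t, fun β => modify_valid hr (q.2 β) hrq h₁ hsub h₃ fun _ => hg⟩,
    fun β => modify_le hrq h₁ hsub h₃, htr,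
    fun x a hx h => (h₂ x a hx).2 (Dns.of_all fun y hy hl => Or.inr (hΨ _ _ _ h hy hl))⟩

theorem Con.rfl {a : Atom} : Con a a := by
  cases a <;> simp [Con]

theorem add_atom {α : K} (q : PP) {r : Pre} (hr : V α r) (hrq : L α r q.1) (a : Atom)
    (c : ∀ z b, V α z → L α z r → Dec α q.1 z b → Con a b) :
    ∃ t ≤ q, L α t.1 r ∧ DD α t a := by
  obtain ⟨t, h₁, h₂, h₃⟩ := add_atoms q hr hrq (fun _ b => b = a) (fun _ _ _ h _ _ => h)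
    (fun z _ b hz hl h h' => h ▸ c z b hz hl h') (fun _ _ _ _ _ h h' => h ▸ h' ▸ Con.rfl)
    (fun k z hz _ => ⟨z, hz, L.rfl, {a}, finite_singleton a, fun _ _ _ _ _ h => h⟩)
  exact ⟨t, h₁, h₂, h₃ _ _ (t.2 α) rfl⟩

theorem pt_dense (α : K) (x : W) (q : PP) : ∃ t ≤ q, ∃ d, x < d ∧ DD α t (.pt d) := by
  obtain ⟨r, hr, hl, hfin, H⟩ := exists_decide (q.good α) (q.2 α) L.rfl
  obtain ⟨ξ, hξ⟩ := exists_low (hfin.insert (.pt x)).countable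
  obtain ⟨t, h₁, -, h₂⟩ := add_atom q hr hl (.pt ξ) fun z b hz hzr h => con_pt_of_low (by
    by_cases h0 : cl b = 0
    · exact hξ b (Or.inr ⟨h0, H z hz hzr b h0 h⟩)
    · cases b <;> simp_all [cl, Low])
  exact ⟨t, h₁, ξ, hξ _ (Or.inl rfl), h₂⟩

theorem eq_dense (α : K) (n : ℕ) (q : PP) : ∃ t ≤ q, ∃ m, DD α t (.eq n m) := by
  obtain ⟨r, hr, hl, -, H⟩ := exists_decide (q.good α) (q.2 α) L.rfl
  by_cases h : ∃ m, Dec α q.1 r (.eq n m)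
  · obtain ⟨m, hm⟩ := h
    obtain ⟨t, h₁, h₂, -⟩ := q.amalg hr hl
    exact ⟨t, h₁, m, dd_of_dec (hm.mono h₂) h₁⟩
  · obtain ⟨r', hr', hl', T, hT, H'⟩ := (Good_def.1 (q.good α) r hr hl).2 (n + 1)
    obtain ⟨m, hm⟩ : BddAbove ((Atom.ge n) ⁻¹' T) :=
      (hT.preimage fun _ _ _ _ h => (Atom.ge.inj h).2).bddAbove
    obtain ⟨t, h₁, -, h₂⟩ := add_atom q hr' (hl'.trans hl) (.eq n m) fun z b hz hzr hb => by
      cases b with
      | eq n' m' =>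
        rintro rfl
        exact absurd ⟨m', H z hz (hzr.trans hl') _ rfl hb⟩ h
      | ge n' m' =>
        rintro rfl
        exact hm (H' z hz hzr _ rfl hb)
      | _ => trivial
    exact ⟨t, h₁, m, h₂⟩

theorem gap_dense (p₀ : PP) (R : W → ℕ → W → W → PP → Prop)
    (hm : ∀ x n a b r r', R x n a b r → r' ≤ r → R x n a b r')
    (hR : ∀ x N, ∀ s : Set W, s.Finite → ∀ q ≤ p₀, ∃ r ≤ q, ∃ n, N ≤ n ∧ ∃ a b, R x n a b r ∧
      ∀ d ∈ s, ¬ (a < d ∧ d ≤ b)) :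
    ∃ α, ∀ x N, ∀ q ≤ p₀, ∃ t ≤ q, ∃ n, N ≤ n ∧ ∃ a b, R x n a b t ∧ DD α t (.gap a b) := by
  obtain ⟨α, -, H⟩ := capture (ι := W × ℕ × List W) p₀
    (fun i r => ∃ n, i.2.1 ≤ n ∧ ∃ a b, R i.1 n a b r ∧ ∀ d ∈ i.2.2, ¬ (a < d ∧ d ≤ b))
    fun i q hq => hR i.1 i.2.1 {d | d ∈ i.2.2} (List.finite_toSet _) q hq
  refine ⟨α, fun x N q hq => ?_⟩
  obtain ⟨r, hr, hl, hfin, hd⟩ := exists_decide (q.good α) (q.2 α) L.rfl
  have hs : (Atom.pt ⁻¹' {a | cl a = 0 ∧ Dec α q.1 r a}).Finite :=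
    hfin.preimage fun _ _ _ _ h => Atom.pt.inj h
  obtain ⟨r', ⟨n, hn, a, b, h₁, h₂⟩, h₃, h₄⟩ := H (x, N, hs.toFinset.toList) r hr (hl.trans (hq α))
  obtain ⟨t, h₅, h₆, h₇⟩ := add_atom q (r'.2 α) (h₄.trans hl) (.gap a b) fun z c hz hzr hc => by
    cases c with
    | pt d =>
      refine h₂ d ?_
      simp only [Finset.mem_toList, Finite.mem_toFinset]
      exact ⟨rfl, hd z hz (hzr.trans h₄) _ rfl hc⟩
    | _ => trivial
  exact ⟨t, h₅, n, hn, a, b, hm _ _ _ _ _ _ h₁ (PP.le_of h₆ h₃), h₇⟩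

theorem dom_dense (p₀ : PP) (R : W → ℕ → ℕ → PP → Prop)
    (hm : ∀ x n m r r', R x n m r → r' ≤ r → R x n m r')
    (hR : ∀ x n, ∀ q ≤ p₀, ∃ r ≤ q, ∃ m, R x n m r)
    (hu : ∀ x n m m', ∀ r ≤ p₀, R x n m r → R x n m' r → m = m') :
    ∃ α, ∀ x, ∀ q ≤ p₀, ∃ t ≤ q, ∃ N, ∀ n, N ≤ n → ∀ m m', ∀ u ≤ t, R x n m u →
      DD α u (.eq n m') → m ≤ m' := by
  obtain ⟨α, -, H⟩ := capture (ι := W × ℕ) p₀ (fun i r => ∃ m, R i.1 i.2 m r)
    fun i q hq => hR i.1 i.2 q hq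
  refine ⟨α, fun x q hq => ?_⟩
  obtain ⟨r, hr, hl, hfin, hd⟩ := exists_decide (q.good α) (q.2 α) L.rfl
  obtain ⟨N, hN⟩ : BddAbove ((fun a => match a with | Atom.eq n _ => n | _ => 0) ''
      {a | cl a = 0 ∧ Dec α q.1 r a}) := (hfin.image _).bddAbove
  let Θ : ℕ → Pre → ℕ → Prop := fun n z m => ∃ y : PP, R x n m y ∧ supp y.1 ⊆ Iio α ∧ L α z y.1
  have hΘ : ∀ n z z' m, Θ n z m → V α z' → L α z' z → Θ n z' m :=
    fun n z z' m ⟨y, h₁, h₂, h₃⟩ _ hl => ⟨y, h₁, h₂, hl.trans h₃⟩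
  have ex : ∀ n z, V α z → L α z p₀.1 → ∃ z' m, V α z' ∧ L α z' z ∧ First α (Θ n) z' m := by
    intro n z hz hzp
    obtain ⟨y, ⟨m, h₁⟩, h₂, h₃⟩ := H (x, n) z hz hzp
    exact First.ex ⟨m, y.1, y.2 α, h₃, y, h₁, h₂, L.rfl⟩
  obtain ⟨t, h₁, -, h₃⟩ := add_atoms q hr hl
    (fun z a => ∃ n m, a = .ge n m ∧ N < n ∧ First α (Θ n) z m)
    (fun z z' a ⟨n, m, h₁, h₂, h₃⟩ hz hl => ⟨n, m, h₁, h₂, h₃.mono (hΘ n) hz hl⟩)
    (by
      rintro z a b hz hzr ⟨n, m, rfl, h₂, -⟩ hb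
      cases b with
      | eq n' m' =>
        rintro rfl
        exact absurd (hN ⟨_, ⟨rfl, hd z hz hzr _ rfl hb⟩, rfl⟩) (not_le.2 h₂)
      | _ => trivial)
    (by
      rintro z a b _ _ ⟨n, m, rfl, -⟩ ⟨n', m', rfl, -⟩
      trivial)
    (by
      intro k z hz hzr
      obtain ⟨z', m, h₁, h₂, h₃⟩ := ex (k - 1) z hz (hzr.trans (hl.trans (hq α)))
      refine ⟨z', h₁, h₂, {.ge (k - 1) m}, finite_singleton _, ?_⟩
      rintro y hy hyz a hk ⟨n, m', rfl, -, h⟩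
      obtain rfl : n + 1 = k := hk
      rw [First.uniq hy h (h₃.mono (hΘ _) hy hyz)]
      rfl)
  refine ⟨t, h₁, N + 1, fun n hn m m' u hut hR' hD => ?_⟩
  obtain ⟨z, m₁, h₄, h₅, h₆⟩ := ex n u.1 (u.2 α) ((hut.trans (h₁.trans hq)) α)
  obtain ⟨u', h₇, h₈, -⟩ := u.amalg h₄ h₅
  have h₉ := h₆.mono (hΘ n) (u'.2 α) h₈
  obtain ⟨y, y₁, y₂, y₃⟩ := h₉.1
  obtain rfl : m₁ = m := hu x n _ _ u' (h₇.trans (hut.trans (h₁.trans hq)))
    (hm _ _ _ _ _ y₁ (PP.le_of y₃ y₂)) (hm _ _ _ _ _ hR' h₇)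
  have := dd_of_dec (h₃ u'.1 _ (u'.2 α) ⟨n, m₁, rfl, hn, h₉⟩) (h₇.trans hut)
  exact (hD.mono h₇).con this rfl

end Pool.Agent.MP_5a4599_gt

end

section

namespace Pool.Agent.MP_5a4599_gt

open Pool.Agent.MP_c6cf52_lc Pool.Agent.MP_c6cf52_lc.Name Pool.Agent.MP_c6cf52_lc.Gen Set Ordinal

theorem wfW : WellFounded (fun a b : W => a < b) := wellFounded_lt

theorem triW (a b : W) : a < b ∨ a = b ∨ b < a := lt_trichotomy a b

noncomputable def o (x : W) : Name PP := ordN wfW x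

noncomputable def w1N : Name PP := setN wfW Set.univ

noncomputable def nN (k : ℕ) : Name PP := ordN natWf ⟨k⟩

noncomputable def omN : Name PP := setN natWf Set.univ

variable {g : Gen PP}

theorem ct_Iio (x : W) : {y | y < x}.Countable := (W.countable_Iic x).mono Iio_subset_Iic_self

theorem E_o {a : W} (h : o a ∈ g.N) {x : g.M} :
    g.E x (g.v (o a)) ↔ ∃ y, y < a ∧ o y ∈ g.N ∧ g.v (o y) = x := E_ordN wfW h

theorem E_w1 (h : w1N ∈ g.N) {x : g.M} :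
    g.E x (g.v w1N) ↔ ∃ y, o y ∈ g.N ∧ g.v (o y) = x := by
  unfold w1N at h ⊢
  rw [E_setN wfW h]
  simp only [mem_univ, true_and]
  rfl

theorem o_lt {a b : W} (ha : o a ∈ g.N) (hb : o b ∈ g.N) :
    g.E (g.v (o a)) (g.v (o b)) ↔ a < b := ord_lt_iff wfW triW ha hb

theorem o_inj {a b : W} (ha : o a ∈ g.N) (hb : o b ∈ g.N) (h : g.v (o a) = g.v (o b)) : a = b :=
  ord_inj wfW triW ha hb h

theorem o_mem {a b : W} (hb : o b ∈ g.N) (hab : a < b) : o a ∈ g.N :=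
  ordN_mem wfW hb (ct_Iio b) hab

theorem o_w1 (h : w1N ∈ g.N) {a : W} (ha : o a ∈ g.N) : g.E (g.v (o a)) (g.v w1N) :=
  (E_w1 h).2 ⟨a, ha, rfl⟩

theorem nN_mem (k : ℕ) : nN k ∈ g.N := nat_mem _

theorem omN_mem : omN ∈ g.N := g.omega_mem

theorem nN_inj {j k : ℕ} (h : g.v (nN j) = g.v (nN k)) : j = k :=
  congrArg ULift.down (ord_inj natWf natTri (nN_mem j) (nN_mem k) h)

theorem nN_lt {j k : ℕ} : g.E (g.v (nN j)) (g.v (nN k)) ↔ j < k :=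
  ord_lt_iff natWf natTri (nN_mem j) (nN_mem k)

theorem E_nN {k : ℕ} {x : g.M} : g.E x (g.v (nN k)) ↔ ∃ j < k, g.v (nN j) = x := by
  unfold nN
  rw [E_ordN natWf (nat_mem _)]
  exact ⟨fun ⟨y, h₁, _, h₂⟩ => ⟨y.down, h₁, h₂⟩, fun ⟨j, h₁, h₂⟩ => ⟨⟨j⟩, h₁, nat_mem _, h₂⟩⟩

theorem E_om {x : g.M} : g.E x (g.v omN) ↔ ∃ j, g.v (nN j) = x := by
  unfold omN
  rw [E_setN natWf g.omega_mem]
  exact ⟨fun ⟨y, _, _, h₂⟩ => ⟨y.down, h₂⟩, fun ⟨j, h₂⟩ => ⟨⟨j⟩, trivial, nat_mem _, h₂⟩⟩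

theorem nN_om (k : ℕ) : g.E (g.v (nN k)) (g.v omN) := E_om.2 ⟨k, rfl⟩

def wom : W := ⟨ω, omega0_lt_omega_one⟩

def wn (n : ℕ) : W := ⟨n, (natCast_lt_omega0 n).trans omega0_lt_omega_one⟩

theorem v_nN (h : o wom ∈ g.N) (n : ℕ) : g.v (nN n) = g.v (o (wn n)) := by
  have hm : ∀ k, o (wn k) ∈ g.N := fun k => o_mem h (natCast_lt_omega0 k)
  induction n using Nat.strong_induction_on with
  | h n ih =>
    refine ext fun x => ?_
    rw [E_nN, E_o (hm n)]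
    constructor
    · rintro ⟨j, hj, rfl⟩
      exact ⟨wn j, (Nat.cast_lt.2 hj : (j : K) < n), hm j, (ih j hj).symm⟩
    · rintro ⟨y, hy, -, rfl⟩
      obtain ⟨j, hj⟩ := lt_omega0.1 ((show y.1 < n from hy).trans (natCast_lt_omega0 n))
      obtain rfl : y = wn j := Subtype.ext hj
      have : j < n := Nat.cast_lt.1 (show (j : K) < n from hy)
      exact ⟨j, this, ih j this⟩

theorem v_om (h : o wom ∈ g.N) : g.v omN = g.v (o wom) := by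
  refine ext fun x => ?_
  rw [E_om, E_o h]
  constructor
  · rintro ⟨j, rfl⟩
    exact ⟨wn j, natCast_lt_omega0 j, o_mem h (natCast_lt_omega0 j), (v_nN h j).symm⟩
  · rintro ⟨y, hy, -, rfl⟩
    obtain ⟨j, hj⟩ := lt_omega0.1 (show y.1 < ω from hy)
    obtain rfl : y = wn j := Subtype.ext hj
    exact ⟨j, v_nN h j⟩

theorem no_card_between (hw : w1N ∈ g.N) (m : g.M) (hm : IsCard g.E m)
    (hom : g.E (g.v omN) m) : ¬ g.E m (g.v w1N) := by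
  intro h
  obtain ⟨y, hy, rfl⟩ := (E_w1 hw).1 h
  refine hm.2 _ hom ?_
  have := (ct_Iio y).to_subtype
  obtain ⟨e, he⟩ := exists_injective_nat {z | z < y}
  let τ : Name PP := relN (fun z : {z | z < y} => o z.1) (fun z => nN (e z)) (fun _ => ⊤)
  refine dens (Ψ := fun _ E w => ∃ f, IsInj E f (w 0) (w 1)) (UDef.ex (UDef.isInj _ _ _))
    (l2 hy omN_mem) fun p _ => ⟨p, le_rfl, {τ}, countable_singleton _, fun g' _ hC hl => ?_⟩
  have hτ : τ ∈ g'.N := hC rfl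
  have hy' : o y ∈ g'.N := hl _ (by simp)
  refine ⟨g'.v τ, ⟨fun p hp => ?_, fun a ha => ?_⟩, fun a a' b h₁ h₂ => ?_⟩
  · obtain ⟨z, -, h₁, h₂, rfl⟩ := (E_relN hτ).1 hp
    exact ⟨_, _, (o_lt h₁ hy').2 z.2, nN_om _, isPair_pr _ _⟩
  · obtain ⟨z, hz, hzN, rfl⟩ := (E_o hy').1 ha
    refine ⟨_, (app_relN hτ).2 ⟨⟨z, hz⟩, g'.top, hzN, nN_mem _, rfl, rfl⟩, fun b hb => ?_⟩
    obtain ⟨z', -, h₁, -, e₁, rfl⟩ := (app_relN hτ).1 hb
    obtain rfl : z' = ⟨z, hz⟩ := Subtype.ext (o_inj h₁ hzN e₁.symm)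
    rfl
  · obtain ⟨z, -, -, -, rfl, rfl⟩ := (app_relN hτ).1 h₁
    obtain ⟨z', -, -, -, rfl, e₂⟩ := (app_relN hτ).1 h₂
    rw [he (nN_inj e₂)]

theorem isCard_w1 (hw : w1N ∈ g.N) : IsCard g.E (g.v w1N) := by
  refine ⟨isOrd_setN wfW triW hw fun _ _ _ _ => trivial, fun a ha ⟨f, hf⟩ => ?_⟩
  obtain ⟨y, hy, rfl⟩ := (E_w1 hw).1 ha
  obtain ⟨σ, hσ, rfl⟩ := exists_v f
  obtain ⟨p₀, -, H⟩ := transfer (UDef.isInj 0 1 2) (l3 hσ hw hy) hf
  obtain ⟨e, he⟩ := (W.countable_Iic y).exists_eq_range ⟨y, self_mem_Iic⟩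
  let F : PP → W → W → Prop := fun r ξ z => ∀ g' : Gen PP, r ∈ g'.G → σ ∈ g'.N → o ξ ∈ g'.N →
    o z ∈ g'.N → App g'.E (g'.v σ) (g'.v (o ξ)) (g'.v (o z))
  have hF : ∀ r r' ξ z, F r ξ z → r' ≤ r → F r' ξ z :=
    fun r r' ξ z h hl g' hg => h g' (g'.up hg hl)
  obtain ⟨q, hq, δ, hδ⟩ := p₀.proper
    (fun n r ξ => F r ξ (e n) ∨ ∀ r' ≤ r, ∀ ξ', ¬ F r' ξ' (e n)) (by
      rintro n r r' ξ (h | h) hl
      exacts [Or.inl (hF _ _ _ _ h hl), Or.inr fun s hs => h s (hs.trans hl)]) (by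
      intro n q _
      by_cases h : ∃ r ≤ q, ∃ ξ, F r ξ (e n)
      · obtain ⟨r, hr, ξ, h⟩ := h
        exact ⟨r, hr, ξ, Or.inl h⟩
      · exact ⟨q, le_rfl, w0, Or.inr fun r hr ξ h' => h ⟨r, hr, ξ, h'⟩⟩)
  obtain ⟨g', hq', hC⟩ := exists_gen q {σ, w1N, o y, o δ} (toFinite _).countable
  have hf' : IsInj g'.E (g'.v σ) (g'.v w1N) (g'.v (o y)) :=
    H g' (g'.up hq' hq) (l3 (hC (by simp)) (hC (by simp)) (hC (by simp)))
  obtain ⟨b, hb, hab⟩ := fun_ex hf'.1 (o_w1 (hC (by simp)) (hC (by simp) : o δ ∈ g'.N))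
  obtain ⟨z, hz, hzN, rfl⟩ := (E_o (hC (by simp))).1 hb
  obtain ⟨r, hr, H'⟩ := transfer_app (hC (by simp)) (hC (by simp)) hzN hab
  obtain ⟨s, -, h₁, h₂⟩ := g'.dir hr hq'
  obtain ⟨n, rfl⟩ : z ∈ range e := he ▸ hz.le
  obtain ⟨s', h₃, ξ, hξ, h₄ | h₄⟩ := hδ n s h₂
  · obtain ⟨g'', hs', hC'⟩ := exists_gen s' {σ, w1N, o y, o δ, o ξ, o (e n)} (toFinite _).countable
    have hf'' : IsInj g''.E (g''.v σ) (g''.v w1N) (g''.v (o y)) :=
      H g'' (g''.up hs' (h₃.trans (h₂.trans hq)))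
        (l3 (hC' (by simp)) (hC' (by simp)) (hC' (by simp)))
    have a₁ := h₄ g'' hs' (hC' (by simp)) (hC' (by simp)) (hC' (by simp))
    have a₂ := H' g'' (g''.up hs' (h₃.trans h₁)) (hC' (by simp)) (hC' (by simp)) (hC' (by simp))
    exact hξ.ne (o_inj (hC' (by simp)) (hC' (by simp)) (hf''.2 _ _ _ a₁ a₂))
  · exact h₄ s' le_rfl δ (hF _ _ _ _ H' (h₃.trans h₁))

theorem udef_app2 (i j k l : ℕ) : UDef.{2} (fun _ E w => App2 E (w i) (w j) (w k) (w l)) := by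
  unfold App2
  exact UDef.ex ((UDef.isPair _ _ _).and (UDef.app _ _ _))

theorem udef_tot2 (i j k l : ℕ) : UDef.{2} (fun _ E w => Tot2 E (w i) (w j) (w k) (w l)) := by
  unfold Tot2
  repeat' first
    | exact UDef.mem _ _ | exact UDef.eq _ _ | exact udef_app2 _ _ _ _ | apply UDef.and
    | apply UDef.imp | apply UDef.all | apply UDef.ex

theorem transfer_app2 {a b c d : Name PP} (ha : a ∈ g.N) (hb : b ∈ g.N) (hc : c ∈ g.N)
    (hd : d ∈ g.N) (h : App2 g.E (g.v a) (g.v b) (g.v c) (g.v d)) :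
    ∃ p ∈ g.G, ∀ g' : Gen PP, p ∈ g'.G → a ∈ g'.N → b ∈ g'.N → c ∈ g'.N → d ∈ g'.N →
      App2 g'.E (g'.v a) (g'.v b) (g'.v c) (g'.v d) := by
  obtain ⟨p, hp, H⟩ := transfer (udef_app2 0 1 2 3) (l4 ha hb hc hd) h
  exact ⟨p, hp, fun g' hp' ha' hb' hc' hd' => H g' hp' (l4 ha' hb' hc' hd')⟩

/-! ### The dominating real -/

noncomputable def dN (α : K) : Name PP :=
  relN (fun z : {z : ℕ × ℕ × PP // DD α z.2.2 (.eq z.1 z.2.1)} => nN z.1.1) (fun z => nN z.1.2.1)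
    (fun z => z.1.2.2)

theorem app_dN {α : K} (h : dN α ∈ g.N) {s t : g.M} : App g.E (g.v (dN α)) s t ↔
    ∃ n m p, p ∈ g.G ∧ DD α p (.eq n m) ∧ s = g.v (nN n) ∧ t = g.v (nN m) := by
  unfold dN at h ⊢
  rw [app_relN h]
  exact ⟨fun ⟨⟨⟨n, m, p⟩, h₀⟩, h₁, _, _, h₂⟩ => ⟨n, m, p, h₁, h₀, h₂⟩,
    fun ⟨n, m, p, h₁, h₀, h₂⟩ => ⟨⟨⟨n, m, p⟩, h₀⟩, h₁, nN_mem _, nN_mem _, h₂⟩⟩

theorem isFun_dN {α : K} (h : dN α ∈ g.N) : IsFun g.E (g.v (dN α)) (g.v omN) (g.v omN) := by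
  constructor
  · intro p hp
    obtain ⟨z, -, -, -, rfl⟩ := (E_relN h).1 hp
    exact ⟨_, _, nN_om _, nN_om _, isPair_pr _ _⟩
  · intro a ha
    obtain ⟨n, rfl⟩ := E_om.1 ha
    have : ∃ b, App g.E (g.v (dN α)) (g.v (nN n)) b := by
      refine dens (Ψ := fun _ E w => ∃ b, App E (w 0) (w 1) b) (UDef.ex (UDef.app _ _ _))
        (l2 h (nN_mem n)) fun p _ => ?_
      obtain ⟨t, ht, m, hm⟩ := eq_dense α n p
      exact ⟨t, ht, ∅, countable_empty, fun g' ht' _ hl =>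
        ⟨_, (app_dN (hl _ (by simp))).2 ⟨n, m, t, ht', hm, rfl, rfl⟩⟩⟩
    obtain ⟨b, hb⟩ := this
    refine ⟨b, hb, fun b' hb' => ?_⟩
    obtain ⟨n₁, m₁, p₁, h₁, d₁, e₁, rfl⟩ := (app_dN h).1 hb
    obtain ⟨n₂, m₂, p₂, h₂, d₂, e₂, rfl⟩ := (app_dN h).1 hb'
    obtain ⟨r, -, h₃, h₄⟩ := g.dir h₁ h₂
    rw [(d₂.mono h₄).con (d₁.mono h₃) (nN_inj (e₂.symm.trans e₁))]

theorem prB (hw : w1N ∈ g.N) : PrB g.E (g.v omN) (g.v w1N) := by
  intro F hF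
  obtain ⟨σ, hσ, rfl⟩ := exists_v F
  obtain ⟨p₀, hp₀, H⟩ := transfer (udef_tot2 0 1 2 2) (l3 hσ hw omN_mem) hF
  replace H : ∀ g' : Gen PP, p₀ ∈ g'.G → σ ∈ g'.N → w1N ∈ g'.N →
      Tot2 g'.E (g'.v σ) (g'.v w1N) (g'.v omN) (g'.v omN) :=
    fun g' h₁ h₂ h₃ => H g' h₁ (l3 h₂ h₃ omN_mem)
  let R : W → ℕ → ℕ → PP → Prop := fun x n m r => ∀ g' : Gen PP, r ∈ g'.G → σ ∈ g'.N →
    o x ∈ g'.N → App2 g'.E (g'.v σ) (g'.v (o x)) (g'.v (nN n)) (g'.v (nN m))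
  have hR : ∀ (g' : Gen PP) x n m, σ ∈ g'.N → o x ∈ g'.N →
      App2 g'.E (g'.v σ) (g'.v (o x)) (g'.v (nN n)) (g'.v (nN m)) → ∃ r ∈ g'.G, R x n m r := by
    intro g' x n m h₁ h₂ h
    obtain ⟨r, hr, h⟩ := transfer_app2 h₁ h₂ (nN_mem n) (nN_mem m) h
    exact ⟨r, hr, fun g'' a b c => h g'' a b c (nN_mem n) (nN_mem m)⟩
  obtain ⟨α, hα⟩ := dom_dense p₀ R (fun x n m r r' h hl g' hg => h g' (g'.up hg hl)) (by
    intro x n q hq
    obtain ⟨g', hq', hC⟩ := exists_gen q {σ, w1N, o x} (toFinite _).countable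
    obtain ⟨m, hm, h, -⟩ := H g' (g'.up hq' hq) (hC (by simp)) (hC (by simp)) _ _
      (o_w1 (hC (by simp)) (hC (by simp) : o x ∈ g'.N)) (nN_om n)
    obtain ⟨m, rfl⟩ := E_om.1 hm
    obtain ⟨r, hr, h⟩ := hR g' x n m (hC (by simp)) (hC (by simp)) h
    obtain ⟨s, -, h₁, h₂⟩ := g'.dir hr hq'
    exact ⟨s, h₂, m, fun g'' hg => h g'' (g''.up hg h₁)⟩) (by
    intro x n m m' r hr h h'
    obtain ⟨g', hq', hC⟩ := exists_gen r {σ, w1N, o x} (toFinite _).countable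
    obtain ⟨k, -, -, hk⟩ := H g' (g'.up hq' hr) (hC (by simp)) (hC (by simp)) _ _
      (o_w1 (hC (by simp)) (hC (by simp) : o x ∈ g'.N)) (nN_om n)
    exact nN_inj ((hk _ (h g' hq' (hC (by simp)) (hC (by simp)))).trans
      (hk _ (h' g' hq' (hC (by simp)) (hC (by simp)))).symm))
  refine dens (Ψ := fun _ E w => ∃ d, IsFun E d (w 2) (w 2) ∧ ∀ x, E x (w 1) → ∃ N, E N (w 2) ∧
    ∀ n m m', E n (w 2) → ¬ E n N → App2 E (w 0) x n m → App E d n m' → ¬ E m' m) (by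
      repeat' first
        | exact UDef.mem _ _ | exact UDef.app _ _ _ | exact UDef.isFun _ _ _
        | exact udef_app2 _ _ _ _ | apply UDef.and | apply UDef.not
        | apply UDef.imp | apply UDef.all | apply UDef.ex) (l3 hσ hw omN_mem) fun p hp => ?_
  obtain ⟨q, -, h₁, h₂⟩ := g.dir hp hp₀
  refine ⟨q, h₁, {dN α}, countable_singleton _, fun g' hq hC hl =>
    ⟨g'.v (dN α), isFun_dN (hC rfl), fun x hx => ?_⟩⟩
  have hσ' : σ ∈ g'.N := hl _ (by simp)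
  have hw' : w1N ∈ g'.N := hl _ (by simp)
  obtain ⟨x, hxN, rfl⟩ := (E_w1 hw').1 hx
  refine dens (Ψ := fun _ E w => ∃ N, E N (w 2) ∧
    ∀ n m m', E n (w 2) → ¬ E n N → App2 E (w 0) (w 3) n m → App E (w 4) n m' → ¬ E m' m) (by
      repeat' first
        | exact UDef.mem _ _ | exact UDef.app _ _ _
        | exact udef_app2 _ _ _ _ | apply UDef.and | apply UDef.not
        | apply UDef.imp | apply UDef.all | apply UDef.ex)
      (lcons hσ' (l4 hw' omN_mem hxN (hC rfl))) fun p hp => ?_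
  obtain ⟨q', -, h₃, h₄⟩ := g'.dir hp hq
  obtain ⟨t, ht, N, hN⟩ := hα x q' (h₄.trans h₂)
  refine ⟨t, ht.trans h₃, ∅, countable_empty, fun g'' ht' _ hl' =>
    ⟨g''.v (nN N), nN_om N, fun n m m' hn hnN a₁ a₂ => ?_⟩⟩
  have b₁ : σ ∈ g''.N := hl' _ (by simp)
  have b₂ : w1N ∈ g''.N := hl' _ (by simp)
  have b₃ : o x ∈ g''.N := hl' _ (by simp)
  obtain ⟨n', m', p', hp', d₁, rfl, rfl⟩ := (app_dN (hl' _ (by simp))).1 a₂
  obtain ⟨k, hk, -, hk'⟩ := H g'' (g''.up ht' (ht.trans (h₄.trans h₂))) b₁ b₂ _ _ (o_w1 b₂ b₃) hn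
  obtain rfl := hk' m a₁
  obtain ⟨m, rfl⟩ := E_om.1 hk
  obtain ⟨r, hr, h⟩ := hR g'' x n' m b₁ b₃ a₁
  obtain ⟨u, hu, u₁, u₂⟩ := g''.dir hr hp'
  obtain ⟨u', -, u₃, u₄⟩ := g''.dir hu ht'
  rw [nN_lt, not_lt] at hnN ⊢
  exact hN n' hnN m m' u' u₄ (fun g₃ hg => h g₃ (g₃.up hg (u₃.trans u₁))) (d₁.mono (u₃.trans u₂))

/-! ### The club -/

noncomputable def gN (α : K) : Name PP :=
  relN (fun z : {z : W × W × PP // DD α z.2.2 (.gap z.1 z.2.1)} => o z.1.1) (fun z => o z.1.2.1)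
    (fun z => z.1.2.2)

theorem app_gN {α : K} (h : gN α ∈ g.N) {s t : g.M} : App g.E (g.v (gN α)) s t ↔
    ∃ a b p, p ∈ g.G ∧ DD α p (.gap a b) ∧ o a ∈ g.N ∧ o b ∈ g.N ∧
      s = g.v (o a) ∧ t = g.v (o b) := by
  unfold gN at h ⊢
  rw [app_relN h]
  exact ⟨fun ⟨⟨⟨n, m, p⟩, h₀⟩, h₁, h₂⟩ => ⟨n, m, p, h₁, h₀, h₂⟩,
    fun ⟨n, m, p, h₁, h₀, h₂⟩ => ⟨⟨⟨n, m, p⟩, h₀⟩, h₁, h₂⟩⟩

theorem exists_club {α : K} (h : gN α ∈ g.N) (hw : w1N ∈ g.N) :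
    ∃ C, (∀ c, g.E c C → g.E c (g.v w1N)) ∧ (∀ a, g.E a (g.v w1N) → ∃ c, g.E c C ∧ g.E a c) ∧
      (∀ d, g.E d (g.v w1N) → (∃ a, g.E a d) →
        (∀ a, g.E a d → ∃ c, g.E c C ∧ g.E a c ∧ g.E c d) → g.E d C) ∧
      ∀ a b c, App g.E (g.v (gN α)) a b → g.E c C → g.E a c → g.E b c := by
  have hU : UDef.{2} (fun _ E w => ∀ a b, App E (w 1) a b → E a (w 0) → E b (w 0)) := by
    repeat' first
      | exact UDef.mem _ _ | exact UDef.app _ _ _ | apply UDef.imp | apply UDef.all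
  obtain ⟨C, hC⟩ := sep_udef hU [g.v (gN α)] (g.v w1N)
  replace hC : ∀ x, g.E x C ↔ g.E x (g.v w1N) ∧
    ∀ a b, App g.E (g.v (gN α)) a b → g.E a x → g.E b x := hC
  refine ⟨C, fun c hc => ((hC c).1 hc).1, fun a ha => ?_, fun d hd _ H => ?_,
    fun a b c hab hc => ((hC c).1 hc).2 a b hab⟩
  · obtain ⟨x, hx, rfl⟩ := (E_w1 hw).1 ha
    suffices ∃ c, (g.E c (g.v w1N) ∧ ∀ a b, App g.E (g.v (gN α)) a b → g.E a c → g.E b c) ∧
        g.E (g.v (o x)) c by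
      obtain ⟨c, h₁, h₂⟩ := this
      exact ⟨c, (hC c).2 h₁, h₂⟩
    refine dens (Ψ := fun _ E w => ∃ c, (E c (w 1) ∧ ∀ a b, App E (w 0) a b → E a c → E b c) ∧
      E (w 2) c) (by
        repeat' first
          | exact UDef.mem _ _ | exact UDef.app _ _ _ | apply UDef.and | apply UDef.imp
          | apply UDef.all | apply UDef.ex) (l3 h hw hx) fun p _ => ?_
    obtain ⟨t, ht, d, hd, hD⟩ := pt_dense α x p
    refine ⟨t, ht, {o d}, countable_singleton _, fun g' ht' hC' hl => ⟨g'.v (o d),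
      ⟨o_w1 (hl _ (by simp)) (hC' rfl), fun a b hab ha => ?_⟩,
      (o_lt (hl _ (by simp)) (hC' rfl)).2 hd⟩⟩
    obtain ⟨a, b, p', hp', d₁, h₁, h₂, rfl, rfl⟩ := (app_gN (hl _ (by simp))).1 hab
    obtain ⟨u, -, u₁, u₂⟩ := g'.dir hp' ht'
    rw [o_lt h₁ (hC' rfl)] at ha
    rw [o_lt h₂ (hC' rfl)]
    exact not_le.1 fun h' => (hD.mono u₂).con (d₁.mono u₁) ⟨ha, h'⟩
  · refine (hC d).2 ⟨hd, fun a b hab ha => ?_⟩
    obtain ⟨c, hc, h₁, h₂⟩ := H a ha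
    obtain ⟨x, hx, rfl⟩ := (E_w1 hw).1 hd
    obtain ⟨y, hy, hyN, rfl⟩ := (E_o hx).1 h₂
    obtain ⟨z, hz, hzN, rfl⟩ := (E_o hyN).1 (((hC _).1 hc).2 a b hab h₁)
    exact (o_lt hzN hx).2 (hz.trans hy)

def StarHyp {M : Type 2} (E : M → M → Prop) (A B om w1 : M) : Prop :=
  Tot2 E A w1 om w1 ∧ Tot2 E B w1 om w1 ∧
    ∀ x n, E x w1 → E n om → ∃ N, E N om ∧ ∀ n' a b, E n' om → ¬ E n' N →
      App2 E A x n' a → App2 E B x n b → ¬ E a b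

theorem udef_starHyp : UDef.{2} (fun _ E w => StarHyp E (w 0) (w 1) (w 2) (w 3)) := by
  unfold StarHyp
  repeat' first
    | exact UDef.mem _ _ | exact udef_tot2 _ _ _ _ | exact udef_app2 _ _ _ _ | apply UDef.and
    | apply UDef.not | apply UDef.imp | apply UDef.all | apply UDef.ex

theorem star_pick {A B : g.M} (hw : w1N ∈ g.N) (h : StarHyp g.E A B (g.v omN) (g.v w1N)) {x : W}
    (hx : o x ∈ g.N) (N : ℕ) {s : Set W} (hs : s.Finite) :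
    ∃ n, N ≤ n ∧ ∃ a b, o a ∈ g.N ∧ o b ∈ g.N ∧ App2 g.E A (g.v (o x)) (g.v (nN n)) (g.v (o a)) ∧
      App2 g.E B (g.v (o x)) (g.v (nN n)) (g.v (o b)) ∧ ∀ d ∈ s, ¬ (a < d ∧ d ≤ b) := by
  have hA : ∀ n, ∃ a, o a ∈ g.N ∧ App2 g.E A (g.v (o x)) (g.v (nN n)) (g.v (o a)) := by
    intro n
    obtain ⟨m, hm, h₁, -⟩ := h.1 _ _ (o_w1 hw hx) (nN_om n)
    obtain ⟨a, ha, rfl⟩ := (E_w1 hw).1 hm
    exact ⟨a, ha, h₁⟩
  have hB : ∀ n, ∃ a, o a ∈ g.N ∧ App2 g.E B (g.v (o x)) (g.v (nN n)) (g.v (o a)) := by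
    intro n
    obtain ⟨m, hm, h₁, -⟩ := h.2.1 _ _ (o_w1 hw hx) (nN_om n)
    obtain ⟨a, ha, rfl⟩ := (E_w1 hw).1 hm
    exact ⟨a, ha, h₁⟩
  choose a ha using hA
  choose b hb using hB
  have ev : ∀ d ∈ s, ∀ᶠ n in Filter.atTop, ¬ (a n < d ∧ d ≤ b n) := by
    intro d _
    by_cases h' : ∃ m, d ≤ b m
    · obtain ⟨m, hm⟩ := h'
      obtain ⟨N', hN', H⟩ := h.2.2 _ _ (o_w1 hw hx) (nN_om m)
      obtain ⟨N', rfl⟩ := E_om.1 hN'
      filter_upwards [Filter.eventually_ge_atTop N'] with n hn h₁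
      exact H _ _ _ (nN_om n) (by rw [nN_lt]; omega) (ha n).2 (hb m).2
        ((o_lt (ha n).1 (hb m).1).2 (h₁.1.trans_le hm))
    · exact Filter.Eventually.of_forall fun n h₁ => h' ⟨n, h₁.2⟩
  obtain ⟨n, h₁, h₂⟩ := (((Filter.eventually_all_finite hs).2 ev).and
    (Filter.eventually_ge_atTop N)).exists
  exact ⟨n, h₂, a n, b n, (ha n).1, (hb n).1, (ha n).2, (hb n).2, h₁⟩

theorem prStar (hw : w1N ∈ g.N) : PrStar g.E (g.v omN) (g.v w1N) := by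
  intro A B hA hB _ hH
  obtain ⟨σ, hσ, rfl⟩ := exists_v A
  obtain ⟨τ, hτ, rfl⟩ := exists_v B
  obtain ⟨p₀, hp₀, H⟩ := transfer udef_starHyp (l4 hσ hτ omN_mem hw) ⟨hA, hB, hH⟩
  replace H : ∀ g' : Gen PP, p₀ ∈ g'.G → σ ∈ g'.N → τ ∈ g'.N → w1N ∈ g'.N →
      StarHyp g'.E (g'.v σ) (g'.v τ) (g'.v omN) (g'.v w1N) :=
    fun g' h₁ h₂ h₃ h₄ => H g' h₁ (l4 h₂ h₃ omN_mem h₄)
  let R : W → ℕ → W → W → PP → Prop := fun x n a b r => ∀ g' : Gen PP, r ∈ g'.G → σ ∈ g'.N →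
    τ ∈ g'.N → o x ∈ g'.N → o a ∈ g'.N → o b ∈ g'.N →
      App2 g'.E (g'.v σ) (g'.v (o x)) (g'.v (nN n)) (g'.v (o a)) ∧
      App2 g'.E (g'.v τ) (g'.v (o x)) (g'.v (nN n)) (g'.v (o b))
  obtain ⟨α, hα⟩ := gap_dense p₀ R (fun x n a b r r' h hl g' hg => h g' (g'.up hg hl)) (by
    intro x N s hs q hq
    obtain ⟨g', hq', hC⟩ := exists_gen q {σ, τ, w1N, o x} (toFinite _).countable
    have b₁ : σ ∈ g'.N := hC (by simp)
    have b₂ : τ ∈ g'.N := hC (by simp)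
    have b₃ : w1N ∈ g'.N := hC (by simp)
    have b₄ : o x ∈ g'.N := hC (by simp)
    obtain ⟨n, hn, a, b, ha, hb, h₁, h₂, h₃⟩ :=
      star_pick b₃ (H g' (g'.up hq' hq) b₁ b₂ b₃) b₄ N hs
    obtain ⟨r₁, hr₁, h₁⟩ := transfer_app2 b₁ b₄ (nN_mem n) ha h₁
    obtain ⟨r₂, hr₂, h₂⟩ := transfer_app2 b₂ b₄ (nN_mem n) hb h₂
    obtain ⟨u, hu, u₁, u₂⟩ := g'.dir hr₁ hr₂
    obtain ⟨u', -, u₃, u₄⟩ := g'.dir hu hq'
    exact ⟨u', u₄, n, hn, a, b, fun g'' c₀ c₁ c₂ c₃ c₄ c₅ =>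
      ⟨h₁ g'' (g''.up c₀ (u₃.trans u₁)) c₁ c₃ (nN_mem n) c₄,
        h₂ g'' (g''.up c₀ (u₃.trans u₂)) c₂ c₃ (nN_mem n) c₅⟩, h₃⟩)
  refine dens (Ψ := fun _ E w => ∃ C, (∀ c, E c C → E c (w 3)) ∧
      (∀ a, E a (w 3) → ∃ c, E c C ∧ E a c) ∧
      (∀ d, E d (w 3) → (∃ a, E a d) → (∀ a, E a d → ∃ c, E c C ∧ E a c ∧ E c d) → E d C) ∧
      ∀ x N, E x (w 3) → E N (w 2) → ∃ n, E n (w 2) ∧ ¬ E n N ∧
        ∀ a b c, App2 E (w 0) x n a → App2 E (w 1) x n b → E c C → E a c → E b c) (by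
      repeat' first
        | exact UDef.mem _ _ | exact udef_app2 _ _ _ _ | apply UDef.and | apply UDef.not
        | apply UDef.imp | apply UDef.all | apply UDef.ex) (l4 hσ hτ omN_mem hw) fun p hp => ?_
  obtain ⟨q, -, h₁, h₂⟩ := g.dir hp hp₀
  refine ⟨q, h₁, {gN α}, countable_singleton _, fun g' hq hC hl => ?_⟩
  have hσ' : σ ∈ g'.N := hl _ (by simp)
  have hτ' : τ ∈ g'.N := hl _ (by simp)
  have hw' : w1N ∈ g'.N := hl _ (by simp)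
  obtain ⟨C, c₁, c₂, c₃, c₄⟩ := exists_club (hC rfl : gN α ∈ g'.N) hw'
  refine ⟨C, c₁, c₂, c₃, fun x N hx hN => ?_⟩
  have hS := H g' (g'.up hq h₂) hσ' hτ' hw'
  obtain ⟨x, hxN, rfl⟩ := (E_w1 hw').1 hx
  obtain ⟨N, rfl⟩ := E_om.1 hN
  suffices ∃ n, g'.E n (g'.v omN) ∧ ¬ g'.E n (g'.v (nN N)) ∧ ∃ a b,
      App2 g'.E (g'.v σ) (g'.v (o x)) n a ∧ App2 g'.E (g'.v τ) (g'.v (o x)) n b ∧
        App g'.E (g'.v (gN α)) a b by
    obtain ⟨n, d₁, d₂, a, b, d₃, d₄, d₅⟩ := this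
    refine ⟨n, d₁, d₂, fun a' b' c e₁ e₂ => ?_⟩
    obtain ⟨_, -, -, u₁⟩ := hS.1 _ _ hx d₁
    obtain ⟨_, -, -, u₂⟩ := hS.2.1 _ _ hx d₁
    rw [(u₁ _ e₁).trans (u₁ _ d₃).symm, (u₂ _ e₂).trans (u₂ _ d₄).symm]
    exact c₄ a b c d₅
  refine dens (Ψ := fun _ E w => ∃ n, E n (w 2) ∧ ¬ E n (w 3) ∧ ∃ a b,
      App2 E (w 0) (w 4) n a ∧ App2 E (w 1) (w 4) n b ∧ App E (w 5) a b) (by
      repeat' first
        | exact UDef.mem _ _ | exact UDef.app _ _ _ | exact udef_app2 _ _ _ _ | apply UDef.and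
        | apply UDef.not | apply UDef.ex)
      (lcons hσ' (lcons hτ' (l4 omN_mem (nN_mem N) hxN (hC rfl)))) fun p hp => ?_
  obtain ⟨q', -, h₃, h₄⟩ := g'.dir hp hq
  obtain ⟨t, ht, n, hn, a, b, hR, hD⟩ := hα x N q' (h₄.trans h₂)
  refine ⟨t, ht.trans h₃, {o a, o b}, (toFinite _).countable, fun g'' ht' hC' hl' => ?_⟩
  have ha : o a ∈ g''.N := hC' (by simp)
  have hb : o b ∈ g''.N := hC' (by simp)
  obtain ⟨e₁, e₂⟩ := hR g'' ht' (hl' _ (by simp)) (hl' _ (by simp)) (hl' _ (by simp)) ha hb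
  exact ⟨g''.v (nN n), nN_om n, fun h => absurd (nN_lt.1 h) (not_lt.2 hn), _, _, e₁, e₂,
    (app_gN (hl' _ (by simp))).2 ⟨a, b, t, ht', hD, ha, hb, rfl, rfl⟩⟩

theorem exists_model : ∃ (g : Gen PP) (w1 : g.M), IsCard g.E w1 ∧
    g.E (g.v (setN natWf Set.univ)) w1 ∧
    (∀ m, IsCard g.E m → g.E (g.v (setN natWf Set.univ)) m → ¬ g.E m w1) ∧
    PrB g.E (g.v (setN natWf Set.univ)) w1 ∧ PrStar g.E (g.v (setN natWf Set.univ)) w1 := by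
  obtain ⟨g, -, hC⟩ := exists_gen (⊤ : PP) {w1N, o wom} (toFinite _).countable
  have hw : w1N ∈ g.N := hC (by simp)
  have ho : o wom ∈ g.N := hC (by simp)
  refine ⟨g, g.v w1N, isCard_w1 hw, ?_, no_card_between hw, prB hw, prStar hw⟩
  change g.E (g.v omN) _
  rw [v_om ho]
  exact o_w1 hw ho

end Pool.Agent.MP_5a4599_gt

end

section

namespace Pool.Agent.MP_5a4599_gt

open Pool.Agent.MP_c6cf52_lc

theorem final : ∃ (M : Type 2) (E : M → M → Prop), IsZFC E ∧ ∃ w w1, IsOmega E w ∧ IsCard E w1 ∧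
    E w w1 ∧ (∀ m, IsCard E m → E w m → ¬ E m w1) ∧ ∀ X T,
      (∃ h, IsInj E h w1 X ∧ ∀ y, E y X → ∃ a, App E h a y) → IsTop E X T → IsRegT1 E X T →
        HasSigmaBase E w X T → IsPerfect E w X T ∧ IsMetacompact E w X T := by
  obtain ⟨g, w1, h₁, h₂, h₃, h₄, h₅⟩ := exists_model
  exact ⟨g.M, g.E, g.isZFC, g.om, w1, isOmega_om, h₁, h₂, h₃,
    perfect_and_metacompact ⟨w1, h₁, h₂, h₃⟩ h₄ h₅⟩

end Pool.Agent.MP_5a4599_gt

end
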